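import Pool.Agent.H43.StableFree.Coker

/-!
The matrices attached to the two arrangements, and the verification of the criteria.
-/

open MvPolynomial

namespace Pool.Agent.H43.StableFree

/-- The product of the three forms in `x, z`. -/
noncomputable def pA (b : ℂ) : PolyS 4 := (X 0 + X 2) * (X 0 - X 2) * (X 0 - C b * X 2)

/-- The product of the three forms in `y, z`. -/
noncomputable def pB (c : ℂ) : PolyS 4 := (X 1 + X 2) * (X 1 - X 2) * (X 1 - C c * X 2)

/-- The product of the three forms in `x + y, z`. -/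
noncomputable def pC : PolyS 4 :=
  (X 0 + X 1 + 2 * X 2) * (X 0 + X 1 - 2 * X 2) * (X 0 + X 1 - 4 * X 2)

theorem C_two : (C (2 : ℂ) : PolyS 4) = 2 := map_ofNat C 2
theorem C_four : (C (4 : ℂ) : PolyS 4) = 4 := map_ofNat C 4
theorem C_sixteen : (C (16 : ℂ) : PolyS 4) = 16 := map_ofNat C 16

/-- The matrix whose kernel is the module of logarithmic derivations. -/
noncomputable def matP (b c : ℂ) : Matrix (Fin 2) (Fin 6) (PolyS 4) :=
  !![pA b, pB c, -pC, 0, 0, 0; 0, 0, pC, -(X 0 + X 1), -X 3, 0]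

theorem matP_zero (b c : ℂ) (t : Fin 6 → PolyS 4) :
    (matP b c).mulVec t 0 = pA b * t 0 + pB c * t 1 - pC * t 2 := by
  simp [matP, Matrix.mulVec, dotProduct, Fin.sum_univ_succ]
  ring

theorem matP_one (b c : ℂ) (t : Fin 6 → PolyS 4) :
    (matP b c).mulVec t 1 = pC * t 2 - (X 0 + X 1) * t 3 - X 3 * t 4 := by
  simp [matP, Matrix.mulVec, dotProduct, Fin.sum_univ_succ]
  ring

theorem mem_Im_matP (b c : ℂ) (s : Fin 2 → PolyS 4) :
    s ∈ Im (matP b c) ↔ ∃ f g h p q, s 0 = pA b * f + pB c * g - pC * h ∧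
      s 1 = pC * h - (X 0 + X 1) * p - X 3 * q := by
  constructor
  · rintro ⟨t, rfl⟩
    exact ⟨t 0, t 1, t 2, t 3, t 4, matP_zero b c t, matP_one b c t⟩
  · rintro ⟨f, g, h, p, q, h0, h1⟩
    refine ⟨![f, g, h, p, q, 0], ?_⟩
    funext i
    fin_cases i
    · exact (matP_zero b c _).trans h0.symm
    · exact (matP_one b c _).trans h1.symm

theorem kill_matP (b c : ℂ) (i : Fin 2) (j : Fin 6) :
    kill 4 (matP b c i j) = matP b c i j := by
  fin_cases i <;> fin_cases j <;> simp [matP, pA, pB, pC, kill, map_ofNat]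

/-! ### The substitution `y ↦ -x`, `w ↦ 0` -/

/-- The substitution `y ↦ -x`, `w ↦ 0`. -/
noncomputable def tau : PolyS 4 →ₐ[ℂ] PolyS 4 := aeval ![X 0, -X 0, X 2, 0, X 4]

theorem sub_tau (p : PolyS 4) : ∃ h q, p = tau p + (X 0 + X 1) * h + X 3 * q := by
  have h : (Ideal.Quotient.mkₐ ℂ (Ideal.span {(X 0 + X 1 : PolyS 4), X 3})).comp tau =
      Ideal.Quotient.mkₐ ℂ (Ideal.span {(X 0 + X 1 : PolyS 4), X 3}) := by
    apply MvPolynomial.algHom_ext
    intro i
    rw [AlgHom.comp_apply]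
    have key : ∀ a b : PolyS 4, a - b ∈ Ideal.span {(X 0 + X 1 : PolyS 4), X 3} →
        Ideal.Quotient.mkₐ ℂ (Ideal.span {(X 0 + X 1 : PolyS 4), X 3}) a =
        Ideal.Quotient.mkₐ ℂ (Ideal.span {(X 0 + X 1 : PolyS 4), X 3}) b := by
      intro a b hab
      exact Ideal.Quotient.eq.mpr hab
    apply key
    rw [Ideal.mem_span_pair]
    fin_cases i
    · exact ⟨0, 0, by simp [tau]⟩
    · exact ⟨-1, 0, by simp [tau]; ring⟩
    · exact ⟨0, 0, by simp [tau]⟩
    · exact ⟨0, -1, by simp [tau]⟩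
    · exact ⟨0, 0, by simp [tau]⟩
  have h1 := AlgHom.congr_fun h p
  have h2 : p - tau p ∈ Ideal.span {(X 0 + X 1 : PolyS 4), X 3} := by
    rw [← Ideal.Quotient.eq]
    exact h1.symm
  obtain ⟨a, b, hab⟩ := Ideal.mem_span_pair.mp h2
  exact ⟨a, b, by linear_combination -hab⟩

theorem tau_X0 : tau (X 0) = X 0 := by simp [tau]
theorem tau_X1 : tau (X 1) = -X 0 := by simp [tau]
theorem tau_X2 : tau (X 2) = X 2 := by simp [tau]
theorem tau_X3 : tau (X 3) = 0 := by simp [tau]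
theorem tau_C (a : ℂ) : tau (C a) = C a := by simp [tau]

theorem tau_pA (b : ℂ) : tau (pA b) = (X 0 - X 2) * (X 0 + X 2) * (X 0 - C b * X 2) := by
  rw [pA]
  simp only [map_mul, map_add, map_sub, tau_X0, tau_X2, tau_C]
  ring

theorem tau_pB (c : ℂ) : tau (pB c) = -((X 0 - X 2) * (X 0 + X 2) * (X 0 + C c * X 2)) := by
  rw [pB]
  simp only [map_mul, map_add, map_sub, tau_X1, tau_X2, tau_C]
  ring

theorem tau_pC : tau pC = 16 * X 2 ^ 3 := by
  rw [pC]
  simp only [map_mul, map_add, map_sub, tau_X0, tau_X1, tau_X2, map_ofNat]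
  ring

/-! ### Divisibility -/

theorem X_dvd_of_kill {n : ℕ} {u : Fin (n + 1)} {p : PolyS n} (h : kill u p = 0) :
    ∃ q, p = X u * q := by
  obtain ⟨q, hq⟩ := sub_kill u p
  exact ⟨q, by rw [h, zero_add] at hq; exact hq⟩

theorem dvd_cancel_z (k : ℕ) (g m : PolyS 4) (h : X 2 ^ k * g = (X 0 - X 2) * (X 0 + X 2) * m) :
    ∃ m', g = (X 0 - X 2) * (X 0 + X 2) * m' := by
  induction k generalizing m with
  | zero => exact ⟨m, by simpa using h⟩
  | succ k ih =>
    have h1 : kill (n := 4) 2 m = 0 := by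
      have := congrArg (kill (n := 4) 2) h
      simp only [map_mul, map_pow, map_sub, map_add, kill_self, kill_ne (n := 4) 2 0 (by decide),
        sub_zero, add_zero, ne_eq, Nat.succ_ne_zero, not_false_eq_true, zero_pow, zero_mul] at this
      rcases mul_eq_zero.mp this.symm with h2 | h2
      · exact absurd h2 (mul_ne_zero (MvPolynomial.X_ne_zero _) (MvPolynomial.X_ne_zero _))
      · exact h2
    obtain ⟨m₁, hm₁⟩ := X_dvd_of_kill h1
    apply ih m₁
    rw [hm₁] at h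
    apply mul_left_cancel₀ (MvPolynomial.X_ne_zero (R := ℂ) (2 : Fin 5))
    linear_combination h

theorem dvd_cancel_x (M N : ℕ) (a b : PolyS 4) (h : X 0 ^ M * a = X 2 ^ N * b) :
    ∃ b', b = X 0 ^ M * b' := by
  induction M generalizing b with
  | zero => exact ⟨b, by simp⟩
  | succ M ih =>
    have h1 : kill (n := 4) 0 b = 0 := by
      have := congrArg (kill (n := 4) 0) h
      simp only [map_mul, map_pow, kill_self, kill_ne (n := 4) 0 2 (by decide),
        ne_eq, Nat.succ_ne_zero, not_false_eq_true, zero_pow, zero_mul] at this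
      rcases mul_eq_zero.mp this.symm with h2 | h2
      · exact absurd h2 (pow_ne_zero _ (MvPolynomial.X_ne_zero _))
      · exact h2
    obtain ⟨b₁, hb₁⟩ := X_dvd_of_kill h1
    obtain ⟨b₂, hb₂⟩ := ih b₁ (by
      rw [hb₁] at h
      apply mul_left_cancel₀ (MvPolynomial.X_ne_zero (R := ℂ) (0 : Fin 5))
      linear_combination h)
    exact ⟨b₂, by rw [hb₁, hb₂]; ring⟩

theorem ne_zero_aux : (16 * X 2 ^ 3 * ((X 0 - X 2) * (X 0 + X 2)) : PolyS 4) ≠ 0 := by
  intro h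
  have := congrArg (MvPolynomial.eval (![2, 0, 1, 0, 0] : Fin 5 → ℂ)) h
  simp at this
  norm_num at this

/-! ### The vanishing side: `b = c = 2` -/

/-- The `1 × 3` matrix. -/
noncomputable def matP3 : Matrix (Fin 1) (Fin 3) (PolyS 4) := !![pA 2, pB 2, -pC]

theorem kill_matP3 (i : Fin 1) (j : Fin 3) : kill 3 (matP3 i j) = matP3 i j := by
  fin_cases i; fin_cases j <;> simp [matP3, pA, pB, pC, kill, map_ofNat]

theorem torsion_free (s : Fin 2 → PolyS 4)
    (hs : ∀ i, i ≠ 4 → ∃ M : ℕ, (X i : PolyS 4) ^ M • s ∈ Im (matP 2 2)) :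
    s ∈ Im (matP 2 2) := by
  -- step 1
  obtain ⟨f, g, h, h0⟩ : ∃ f g h, s 0 = pA 2 * f + pB 2 * g - pC * h := by
    obtain ⟨M, hM⟩ := hs 3 (by decide)
    obtain ⟨f, g, h, p, q, h0, -⟩ := (mem_Im_matP _ _ _).mp hM
    have h1 : (X 3 : PolyS 4) ^ M • (fun _ : Fin 1 => s 0) ∈ Im matP3 := by
      refine ⟨![f, g, h], ?_⟩
      change matP3.mulVec _ = _
      funext i
      fin_cases i
      simp only [Pi.smul_apply, smul_eq_mul] at h0
      simp [matP3, Matrix.mulVec, dotProduct, Fin.sum_univ_succ, h0]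
      ring
    obtain ⟨t, ht⟩ := regular_pow matP3 3 kill_matP3 M h1
    replace ht : matP3.mulVec t = fun _ => s 0 := ht
    refine ⟨t 0, t 1, t 2, ?_⟩
    rw [← congrFun ht 0]
    simp [matP3, Matrix.mulVec, dotProduct, Fin.sum_univ_succ]
    ring
  -- step 2
  have key : ∀ i : Fin 5, i = 0 ∨ i = 2 → ∃ M : ℕ, ∃ m : PolyS 4,
      X i ^ M * tau (s 1 - pC * h) = 16 * X 2 ^ 3 * ((X 0 - X 2) * (X 0 + X 2)) * m := by
    intro i hi
    obtain ⟨M, hM⟩ := hs i (by rcases hi with rfl | rfl <;> decide)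
    obtain ⟨t0, t1, t2, t3, t4, e0, e1⟩ := (mem_Im_matP _ _ _).mp hM
    simp only [Pi.smul_apply, smul_eq_mul] at e0 e1
    have htau : tau (X i) = X i := by
      rcases hi with rfl | rfl
      · exact tau_X0
      · exact tau_X2
    have e2 : pA 2 * (t0 - X i ^ M * f) + pB 2 * (t1 - X i ^ M * g) =
        pC * (t2 - X i ^ M * h) := by
      rw [h0] at e0
      linear_combination -e0
    have e3 : X i ^ M * (s 1 - pC * h) = pC * (t2 - X i ^ M * h) - (X 0 + X 1) * t3 -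
        X 3 * t4 := by
      linear_combination e1
    have e4 := congrArg tau e2
    have e5 := congrArg tau e3
    simp only [map_mul, map_add, map_sub, map_pow, tau_pA, tau_pB, tau_pC, htau, tau_X0, tau_X1,
      tau_X3, add_neg_cancel, zero_mul, sub_zero] at e4 e5
    obtain ⟨m, hm⟩ := dvd_cancel_z 3 (tau t2 - X i ^ M * tau h)
      (C (1 / 16 : ℂ) * ((X 0 - C 2 * X 2) * (tau t0 - X i ^ M * tau f) -
        (X 0 + C 2 * X 2) * (tau t1 - X i ^ M * tau g))) (by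
        have hC : (C (1 / 16 : ℂ) : PolyS 4) * 16 = 1 := by
          rw [← C_sixteen, ← C_mul]
          norm_num
        linear_combination (-C (1 / 16 : ℂ)) * e4 - (X 2 ^ 3 * (tau t2 - X i ^ M * tau h)) * hC)
    refine ⟨M, m, ?_⟩
    rw [hm] at e5
    simp only [map_sub, map_mul, tau_pC]
    linear_combination e5
  obtain ⟨M, m₀, hm₀⟩ := key 0 (Or.inl rfl)
  obtain ⟨N, m₂, hm₂⟩ := key 2 (Or.inr rfl)
  obtain ⟨m, hm⟩ := dvd_cancel_x M N m₂ m₀ (by
    apply mul_left_cancel₀ ne_zero_aux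
    linear_combination (X 2 ^ N) * hm₀ - (X 0 ^ M) * hm₂)
  have hr : tau (s 1 - pC * h) = 16 * X 2 ^ 3 * ((X 0 - X 2) * (X 0 + X 2)) * m := by
    apply mul_left_cancel₀ (pow_ne_zero M (MvPolynomial.X_ne_zero (R := ℂ) (0 : Fin 5)))
    rw [hm₀, hm]; ring
  obtain ⟨p, q, hpq⟩ := sub_tau (s 1 - pC * h)
  -- step 3
  rw [mem_Im_matP]
  refine ⟨f + (X 0 ^ 2 + 4 * X 0 * X 1 + 7 * X 1 ^ 2 - 4 * X 0 * X 2 - 12 * X 1 * X 2
      - 4 * X 2 ^ 2) * m,
    g + (7 * X 0 ^ 2 + 4 * X 0 * X 1 + X 1 ^ 2 - 12 * X 0 * X 2 - 4 * X 1 * X 2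
      - 4 * X 2 ^ 2) * m,
    h + (X 0 ^ 2 + X 0 * X 1 + X 1 ^ 2 - 2 * X 0 * X 2 - 2 * X 1 * X 2 - X 2 ^ 2) * m,
    (((X 0 + X 1) ^ 2 - 4 * (X 0 + X 1) * X 2 - 4 * X 2 ^ 2) *
      (X 0 ^ 2 + X 0 * X 1 + X 1 ^ 2 - 2 * X 0 * X 2 - 2 * X 1 * X 2 - X 2 ^ 2) +
      16 * X 2 ^ 3 * (X 1 - 2 * X 2)) * m - p, -q, ?_, ?_⟩
  · rw [h0]
    simp only [pA, pB, pC]
    rw [C_two]
    ring
  · rw [hr] at hpq
    simp only [pC] at hpq ⊢
    linear_combination hpq

theorem cokerCond_two : CokerCond (matP 2 2) :=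
  cokerCond_of (matP 2 2) 4 (kill_matP 2 2) torsion_free

end Pool.Agent.H43.StableFree
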