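import Pool.Agent.H43.StableFree.Alg

/-!
The non-vanishing side: the matrix with `b = 0`, `c = 4`.
-/

open MvPolynomial

namespace Pool.Agent.H43.StableFree

/-- The special vector. -/
noncomputable def sVec : Fin 2 → PolyS 4 := ![0, X 2 ^ 3 * ((X 0 - X 2) * (X 0 + X 2))]

theorem inv16 : (C (1 / 16 : ℂ) : PolyS 4) * 16 = 1 := by
  rw [← C_sixteen, ← C_mul]
  norm_num

theorem inv64 : (C (1 / 64 : ℂ) : PolyS 4) * 64 = 1 := by
  have : (C (64 : ℂ) : PolyS 4) = 64 := map_ofNat C 64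
  rw [← this, ← C_mul]
  norm_num

theorem sVec_torsion (i : Fin 5) (hi : i ≠ 4) : (X i : PolyS 4) • sVec ∈ Im (matP 0 4) := by
  rw [mem_Im_matP]
  have hA : pA 0 = (X 0 + X 2) * (X 0 - X 2) * X 0 := by simp [pA]
  have hB : pB 4 = (X 1 + X 2) * (X 1 - X 2) * (X 1 - 4 * X 2) := by rw [pB, C_four]
  have h16 := inv16
  have h64 := inv64
  fin_cases i
  · refine ⟨C (1 / 16) * pC, 0, C (1 / 16) * pA 0,
      C (1 / 16) * (((X 0 + X 1) ^ 2 - 4 * (X 0 + X 1) * X 2 - 4 * X 2 ^ 2) * pA 0), 0, ?_, ?_⟩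
    · simp only [sVec, Pi.smul_apply, smul_eq_mul]
      simp
      ring
    · simp only [sVec, Pi.smul_apply, smul_eq_mul]
      simp only [Fin.mk_one, Matrix.cons_val_one, Matrix.cons_val_fin_one, Fin.zero_eta]
      rw [hA, pC]
      linear_combination (-(X 0 * (X 2 ^ 3 * ((X 0 - X 2) * (X 0 + X 2))))) * h16
  · refine ⟨-(C (1 / 16) * pC), 0, -(C (1 / 16) * pA 0),
      -(C (1 / 16) * (((X 0 + X 1) ^ 2 - 4 * (X 0 + X 1) * X 2 - 4 * X 2 ^ 2) * pA 0)) -
        X 2 ^ 3 * ((X 0 - X 2) * (X 0 + X 2)), 0, ?_, ?_⟩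
    · simp only [sVec, Pi.smul_apply, smul_eq_mul]
      simp
      ring
    · simp only [sVec, Pi.smul_apply, smul_eq_mul]
      simp only [Fin.mk_one, Matrix.cons_val_one, Matrix.cons_val_fin_one, Fin.zero_eta]
      rw [hA, pC]
      linear_combination ((X 0 * (X 2 ^ 3 * ((X 0 - X 2) * (X 0 + X 2))))) * h16
  · refine ⟨-(C (1 / 64) * pC), -(C (1 / 64) * pC), -(C (1 / 64) * (pA 0 + pB 4)),
      -(C (1 / 64) * (16 * X 2 ^ 3 * (X 0 ^ 2 - X 0 * X 1 + X 1 ^ 2 - 4 * X 2 * (X 1 - X 0)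
        - X 2 ^ 2) +
        ((X 0 + X 1) ^ 2 - 4 * (X 0 + X 1) * X 2 - 4 * X 2 ^ 2) * (pA 0 + pB 4))), 0, ?_, ?_⟩
    · simp only [sVec, Pi.smul_apply, smul_eq_mul]
      simp
      ring
    · simp only [sVec, Pi.smul_apply, smul_eq_mul]
      simp only [Fin.mk_one, Matrix.cons_val_one, Matrix.cons_val_fin_one, Fin.reduceFinMk]
      rw [hA, hB, pC]
      linear_combination (-(X 2 * (X 2 ^ 3 * ((X 0 - X 2) * (X 0 + X 2))))) * h64
  · refine ⟨0, 0, 0, 0, -(X 2 ^ 3 * ((X 0 - X 2) * (X 0 + X 2))), ?_, ?_⟩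
    · simp only [sVec, Pi.smul_apply, smul_eq_mul]
      simp
    · simp only [sVec, Pi.smul_apply, smul_eq_mul]
      simp only [Fin.mk_one, Matrix.cons_val_one, Matrix.cons_val_fin_one, Fin.reduceFinMk]
      ring
  · exact absurd rfl hi

/-- Restriction to the line through the origin and the point `(p₀, p₁, p₂, 0, 0)`. -/
noncomputable def lineEv (p₀ p₁ p₂ : ℂ) : PolyS 4 →ₐ[ℂ] Polynomial ℂ :=
  aeval ![Polynomial.C p₀ * Polynomial.X, Polynomial.C p₁ * Polynomial.X,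
    Polynomial.C p₂ * Polynomial.X, 0, 0]

theorem lineEv_X (p₀ p₁ p₂ : ℂ) (j : Fin 5) :
    lineEv p₀ p₁ p₂ (X j) = Polynomial.C ((![p₀, p₁, p₂, 0, 0] : Fin 5 → ℂ) j) * Polynomial.X := by
  fin_cases j <;> simp [lineEv]

theorem lineEv_coeff_zero (p₀ p₁ p₂ : ℂ) (a : PolyS 4) :
    (lineEv p₀ p₁ p₂ a).coeff 0 = constantCoeff a := by
  induction a using MvPolynomial.induction_on with
  | C r => simp [lineEv]
  | add f g hf hg => rw [map_add, Polynomial.coeff_add, hf, hg, map_add]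
  | mul_X f j _ =>
    rw [map_mul, lineEv_X, Polynomial.mul_coeff_zero, map_mul]
    simp

/-- The linear dependency between the four points kills linear parts. -/
theorem dependency (a : PolyS 4) :
    (lineEv 1 4 1 a).coeff 1 + (lineEv (-1) 4 1 a).coeff 1 - 5 * (lineEv 0 1 1 a).coeff 1 +
      3 * (lineEv 0 (-1) 1 a).coeff 1 = 0 := by
  induction a using MvPolynomial.induction_on with
  | C r => simp [lineEv, Polynomial.coeff_C]
  | add f g hf hg =>
    simp only [map_add, Polynomial.coeff_add]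
    linear_combination hf + hg
  | mul_X f j _ =>
    simp only [map_mul, lineEv_X]
    have h : ∀ (q : Polynomial ℂ) (r : ℂ),
        (q * (Polynomial.C r * Polynomial.X)).coeff 1 = r * q.coeff 0 := by
      intro q r
      rw [← mul_assoc, Polynomial.coeff_mul_X, Polynomial.mul_coeff_zero, Polynomial.coeff_C_zero,
        mul_comm]
    rw [h, h, h, h, lineEv_coeff_zero, lineEv_coeff_zero, lineEv_coeff_zero, lineEv_coeff_zero]
    fin_cases j <;> simp <;> ring

/-- At a common zero of `A` and `B` where `C` does not vanish, a syzygy has vanishing third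
component. -/
theorem lineEv_syz (p₀ p₁ p₂ : ℂ) (f g h : PolyS 4)
    (hrel : pA 0 * f + pB 4 * g = pC * h)
    (hA : (p₀ + p₂) * (p₀ - p₂) * p₀ = 0) (hB : (p₁ + p₂) * (p₁ - p₂) * (p₁ - 4 * p₂) = 0)
    (hC : (p₀ + p₁ + 2 * p₂) * (p₀ + p₁ - 2 * p₂) * (p₀ + p₁ - 4 * p₂) ≠ 0) :
    lineEv p₀ p₁ p₂ h = 0 := by
  have hA' : lineEv p₀ p₁ p₂ (pA 0) = 0 := by
    have : lineEv p₀ p₁ p₂ (pA 0) = Polynomial.C ((p₀ + p₂) * (p₀ - p₂) * p₀) *
        Polynomial.X ^ 3 := by
      simp only [pA, map_mul, map_add, map_sub, lineEv_X, map_zero]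
      simp
      ring
    rw [this, hA]; simp
  have hB' : lineEv p₀ p₁ p₂ (pB 4) = 0 := by
    have : lineEv p₀ p₁ p₂ (pB 4) =
        Polynomial.C ((p₁ + p₂) * (p₁ - p₂) * (p₁ - 4 * p₂)) * Polynomial.X ^ 3 := by
      simp only [pB, C_four, map_mul, map_add, map_sub, lineEv_X, map_ofNat]
      simp
      ring
    rw [this, hB]; simp
  have hC' : lineEv p₀ p₁ p₂ pC = Polynomial.C
      ((p₀ + p₁ + 2 * p₂) * (p₀ + p₁ - 2 * p₂) * (p₀ + p₁ - 4 * p₂)) * Polynomial.X ^ 3 := by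
    simp only [pC, map_mul, map_add, map_sub, lineEv_X, map_ofNat]
    simp
    ring
  have h1 := congrArg (lineEv p₀ p₁ p₂) hrel
  rw [map_add, map_mul, map_mul, map_mul, hA', hB', hC', zero_mul, zero_mul, add_zero] at h1
  rcases mul_eq_zero.mp h1.symm with h2 | h2
  · rcases mul_eq_zero.mp h2 with h3 | h3
    · exact absurd (Polynomial.C_eq_zero.mp h3) hC
    · exact absurd h3 (pow_ne_zero _ Polynomial.X_ne_zero)
  · exact h2

theorem sVec_not_mem : sVec ∉ Im (matP 0 4) := by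
  rw [mem_Im_matP]
  rintro ⟨f, g, h, p, q, h0, h1⟩
  simp only [sVec, Matrix.cons_val_zero, Matrix.cons_val_one, Matrix.cons_val_fin_one] at h0 h1
  have hrel : pA 0 * f + pB 4 * g = pC * h := by linear_combination -h0
  have htau : tau h = C (1 / 16) * ((X 0 - X 2) * (X 0 + X 2)) := by
    have h2 := congrArg tau h1
    simp only [map_mul, map_add, map_sub, map_pow, tau_pC, tau_X0, tau_X1, tau_X2, tau_X3,
      add_neg_cancel, zero_mul, sub_zero] at h2
    apply mul_left_cancel₀ (mul_ne_zero (show (16 : PolyS 4) ≠ 0 by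
      rw [← C_sixteen]; simp) (pow_ne_zero 3 (MvPolynomial.X_ne_zero (R := ℂ) (2 : Fin 5))))
    linear_combination -h2 - X 2 ^ 3 * ((X 0 - X 2) * (X 0 + X 2)) * inv16
  obtain ⟨a, b, hab⟩ := sub_tau h
  rw [htau] at hab
  have key : ∀ p₀ p₁ p₂ : ℂ, lineEv p₀ p₁ p₂ h = 0 →
      1 / 16 * ((p₀ - p₂) * (p₀ + p₂)) + (p₀ + p₁) * (lineEv p₀ p₁ p₂ a).coeff 1 = 0 := by
    intro p₀ p₁ p₂ hz
    have h2 := congrArg (lineEv p₀ p₁ p₂) hab
    rw [hz] at h2
    simp only [map_add, map_mul, map_sub, lineEv_X] at h2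
    have h3 : lineEv p₀ p₁ p₂ (C (1 / 16)) = Polynomial.C (1 / 16) := by
      simp [lineEv]
    rw [h3] at h2
    simp only [Matrix.cons_val_zero, Matrix.cons_val_one, Matrix.cons_val] at h2
    have h4 : (0 : Polynomial ℂ) = (Polynomial.C (1 / 16 * ((p₀ - p₂) * (p₀ + p₂))) *
        Polynomial.X + Polynomial.C (p₀ + p₁) * lineEv p₀ p₁ p₂ a) * Polynomial.X := by
      rw [h2]
      simp only [map_mul, map_add, map_sub, map_zero]
      ring
    have h5 := congrArg (fun r => Polynomial.coeff r 2) h4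
    simp only [Polynomial.coeff_zero] at h5
    rw [Polynomial.coeff_mul_X, Polynomial.coeff_add, Polynomial.coeff_mul_X,
      Polynomial.coeff_C_zero, Polynomial.coeff_C_mul] at h5
    exact h5.symm
  have k1 := key 1 4 1 (lineEv_syz 1 4 1 f g h hrel (by norm_num) (by norm_num) (by norm_num))
  have k2 := key (-1) 4 1
    (lineEv_syz (-1) 4 1 f g h hrel (by norm_num) (by norm_num) (by norm_num))
  have k3 := key 0 1 1 (lineEv_syz 0 1 1 f g h hrel (by norm_num) (by norm_num) (by norm_num))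
  have k4 := key 0 (-1) 1
    (lineEv_syz 0 (-1) 1 f g h hrel (by norm_num) (by norm_num) (by norm_num))
  have hd := dependency a
  have : (0 : ℂ) = 1 := by
    linear_combination 2 * hd - (2 / 5 : ℂ) * k1 - (2 / 3 : ℂ) * k2 + 10 * k3 + 6 * k4
  exact zero_ne_one this

theorem not_cokerCond : ¬ CokerCond (matP 0 4) := by
  refine not_cokerCond_of (matP 0 4) 4 (kill_matP 0 4) sVec sVec_torsion ?_
  have : (fun r => kill 4 (sVec r)) = sVec := by
    funext r
    fin_cases r <;> simp [sVec, kill]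
  rw [this]
  exact sVec_not_mem

end Pool.Agent.H43.StableFree
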