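import Pool.Agent.H43.StableFree.Alg2

/-!
The two arrangements of thirteen hyperplanes, and the identification of `D_0(A)` with the kernel
of the matrix `matP`.
-/

open MvPolynomial

namespace Pool.Agent.H43.StableFree

/-- Coefficient vectors of the thirteen hyperplanes. -/
def coef (b c : ℤ) : Fin 13 → Fin 5 → ℤ :=
  ![![0, 0, 1, 0, 0],
    ![1, 0, 1, 0, 0], ![1, 0, -1, 0, 0], ![1, 0, -b, 0, 0],
    ![0, 1, 1, 0, 0], ![0, 1, -1, 0, 0], ![0, 1, -c, 0, 0],
    ![1, 1, 2, 0, 0], ![1, 1, -2, 0, 0], ![1, 1, -4, 0, 0],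
    ![0, 0, 0, 1, 0], ![1, 1, 0, 1, 0], ![0, 0, 0, 0, 1]]

/-- Two coefficient vectors with a nonvanishing minor define distinct hyperplanes. -/
theorem hyperplane_ne {n : ℕ} (a a' : Fin (n + 1) → ℂ) (k l : Fin (n + 1))
    (h : a k * a' l ≠ a l * a' k) : hyper a ≠ hyper a' := by
  intro heq
  have hkl : k ≠ l := by
    rintro rfl
    exact h rfl
  let v : Fin (n + 1) → ℂ := Pi.single k (a l) - Pi.single l (a k)
  have h1 : ∀ b : Fin (n + 1) → ℂ, functional b v = b k * a l - b l * a k := by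
    intro b
    change ∑ i, b i * (Pi.single k (a l) - Pi.single l (a k) : Fin (n + 1) → ℂ) i = _
    simp only [Pi.sub_apply, mul_sub, Finset.sum_sub_distrib]
    simp [Pi.single_apply]
  have h2 : v ∈ hyper a := by
    change functional a v = 0
    rw [h1]; ring
  rw [heq] at h2
  have h3 : functional a' v = 0 := h2
  rw [h1] at h3
  apply h
  linear_combination -h3

/-- The condition needed to build the arrangement from the integer matrix. -/
def GoodCoef (b c : ℤ) : Prop :=
  (∀ j, ∃ i, coef b c j i ≠ 0) ∧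
  ∀ j j', j ≠ j' → ∃ k l, coef b c j k * coef b c j' l ≠ coef b c j l * coef b c j' k

/-- The arrangement. -/
def arr (b c : ℤ) (h : GoodCoef b c) : Arrangement 4 where
  d := 13
  a j i := (coef b c j i : ℂ)
  ne_zero j := by
    obtain ⟨i, hi⟩ := h.1 j
    exact ⟨i, by exact_mod_cast hi⟩
  distinct := by
    intro j j' hjj'
    by_contra hne
    obtain ⟨k, l, hkl⟩ := h.2 j j' hne
    exact hyperplane_ne _ _ k l (by exact_mod_cast hkl) hjj'

section Forms

variable (b c : ℤ) (h : GoodCoef b c)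

/-- The forms written out. -/
noncomputable def formVec (b c : ℤ) : Fin 13 → PolyS 4 :=
  ![X 2, X 0 + X 2, X 0 - X 2, X 0 - C (b : ℂ) * X 2,
    X 1 + X 2, X 1 - X 2, X 1 - C (c : ℂ) * X 2,
    X 0 + X 1 + 2 * X 2, X 0 + X 1 - 2 * X 2, X 0 + X 1 - 4 * X 2,
    X 3, X 0 + X 1 + X 3, X 4]

theorem form_eq (j : Fin 13) : (arr b c h).form j = formVec b c j := by
  unfold Arrangement.form
  rw [Fin.sum_univ_five]
  have e2 : (C (2 : ℂ) : PolyS 4) = 2 := C_two
  have e4 : (C (4 : ℂ) : PolyS 4) = 4 := C_four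
  fin_cases j <;> simp [arr, coef, formVec, e2, e4] <;> ring

theorem linForm_ne_zero {n : ℕ} {a : Fin (n + 1) → ℂ} (ha : a ≠ 0) : linForm a ≠ 0 := by
  intro h0
  apply ha
  funext i
  have h1 := congrArg (MvPolynomial.coeff (Finsupp.single i 1)) h0
  unfold linForm at h1
  rw [MvPolynomial.coeff_sum] at h1
  simp only [coeff_C_mul, coeff_X, Finsupp.single_left_inj one_ne_zero, mul_ite, mul_one,
    mul_zero, Finset.sum_ite_eq', Finset.mem_univ, if_true, coeff_zero] at h1
  simpa using h1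

theorem form_ne_zero {n : ℕ} (A : Arrangement n) (j : Fin A.d) : A.form j ≠ 0 :=
  linForm_ne_zero (by
    obtain ⟨i, hi⟩ := A.ne_zero j
    intro h0
    exact hi (congrFun h0 i))

theorem Q_ne_zero {n : ℕ} (A : Arrangement n) : A.Q ≠ 0 :=
  Finset.prod_ne_zero_iff.mpr fun j _ => form_ne_zero A j

/-- The value of a derivation on the defining polynomial. -/
theorem derivation_Q {n : ℕ} (A : Arrangement n) (θ : Derivation ℂ (PolyS n) (PolyS n))
    (t : Fin A.d → PolyS n) (ht : ∀ j, θ (A.form j) = A.form j * t j) :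
    θ A.Q = (∑ j, t j) * A.Q := by
  unfold Arrangement.Q
  induction (Finset.univ : Finset (Fin A.d)) using Finset.induction_on with
  | empty => simp
  | insert j s hj ih =>
    rw [Finset.prod_insert hj, Finset.sum_insert hj, Derivation.leibniz, ih, ht]
    simp only [smul_eq_mul]
    ring

/-- The Euler derivation. -/
noncomputable def euler (n : ℕ) : Derivation ℂ (PolyS n) (PolyS n) := mkDerivation ℂ X

theorem euler_linForm {n : ℕ} (a : Fin (n + 1) → ℂ) : euler n (linForm a) = linForm a := by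
  unfold linForm euler
  rw [map_sum]
  refine Finset.sum_congr rfl fun i _ => ?_
  rw [Derivation.leibniz, mkDerivation_X, derivation_C]
  simp

/-! ### The vector field attached to a vector in the kernel -/

/-- Components of the vector field. -/
noncomputable def comps (b c : ℤ) (v : Fin 6 → PolyS 4) : Fin 5 → PolyS 4 :=
  ![pA b * v 0, pB c * v 1, 0, X 3 * (v 3 - v 4), X 4 * v 5]

/-- The eigenvalue polynomials. -/
noncomputable def tvec (b c : ℤ) (v : Fin 6 → PolyS 4) : Fin 13 → PolyS 4 :=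
  ![0, (X 0 - X 2) * (X 0 - C (b : ℂ) * X 2) * v 0, (X 0 + X 2) * (X 0 - C (b : ℂ) * X 2) * v 0,
    (X 0 + X 2) * (X 0 - X 2) * v 0,
    (X 1 - X 2) * (X 1 - C (c : ℂ) * X 2) * v 1, (X 1 + X 2) * (X 1 - C (c : ℂ) * X 2) * v 1,
    (X 1 + X 2) * (X 1 - X 2) * v 1,
    (X 0 + X 1 - 2 * X 2) * (X 0 + X 1 - 4 * X 2) * v 2,
    (X 0 + X 1 + 2 * X 2) * (X 0 + X 1 - 4 * X 2) * v 2,
    (X 0 + X 1 + 2 * X 2) * (X 0 + X 1 - 2 * X 2) * v 2,
    v 3 - v 4, v 3, v 5]

/-- The vector field. -/
noncomputable def vf (b c : ℤ) (v : Fin 6 → PolyS 4) : Derivation ℂ (PolyS 4) (PolyS 4) :=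
  mkDerivation ℂ (comps b c v)

theorem mem_KerM (b c : ℤ) (v : Fin 6 → PolyS 4) :
    v ∈ KerM (matP (b : ℂ) (c : ℂ)) ↔
      pA b * v 0 + pB c * v 1 = pC * v 2 ∧ pC * v 2 = (X 0 + X 1) * v 3 + X 3 * v 4 := by
  rw [LinearMap.mem_ker]
  change (matP (b : ℂ) (c : ℂ)).mulVec v = 0 ↔ _
  constructor
  · intro h
    have h0 := congrFun h 0
    have h1 := congrFun h 1
    rw [matP_zero, Pi.zero_apply] at h0
    rw [matP_one, Pi.zero_apply] at h1
    exact ⟨by linear_combination h0, by linear_combination h1⟩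
  · rintro ⟨h0, h1⟩
    funext i
    fin_cases i
    · refine (matP_zero _ _ v).trans ?_
      simp only [Pi.zero_apply]
      linear_combination h0
    · refine (matP_one _ _ v).trans ?_
      simp only [Pi.zero_apply]
      linear_combination h1

theorem vf_formVec (v : Fin 6 → PolyS 4) (hv : v ∈ KerM (matP (b : ℂ) (c : ℂ))) (j : Fin 13) :
    vf b c v (formVec b c j) = formVec b c j * tvec b c v j := by
  obtain ⟨h0, h1⟩ := (mem_KerM b c v).mp hv
  have hX0 : vf b c v (X 0) = pA b * v 0 := by simp [vf, comps]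
  have hX1 : vf b c v (X 1) = pB c * v 1 := by simp [vf, comps]
  have hX2 : vf b c v (X 2) = 0 := by simp [vf, comps]
  have hX3 : vf b c v (X 3) = X 3 * (v 3 - v 4) := by simp [vf, comps]
  have hX4 : vf b c v (X 4) = X 4 * v 5 := by simp [vf, comps]
  have hC : ∀ r : ℂ, vf b c v (C r * X 2) = 0 := by
    intro r
    rw [Derivation.leibniz, hX2, derivation_C]
    simp
  have h2 : vf b c v (2 * X 2) = 0 := by rw [← C_two, hC]
  have h4 : vf b c v (4 * X 2) = 0 := by rw [← C_four, hC]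
  fin_cases j
  · simp [formVec, tvec, hX2]
  · simp [formVec, tvec, hX2, hX0, pA]; ring
  · simp [formVec, tvec, hX2, hX0, pA]; ring
  · change vf b c v (X 0 - C (b : ℂ) * X 2) = _
    rw [map_sub, hX0, hC]
    simp [formVec, tvec, pA]; ring
  · simp [formVec, tvec, hX2, hX1, pB]; ring
  · simp [formVec, tvec, hX2, hX1, pB]; ring
  · change vf b c v (X 1 - C (c : ℂ) * X 2) = _
    rw [map_sub, hX1, hC]
    simp [formVec, tvec, pB]; ring
  · change vf b c v (X 0 + X 1 + 2 * X 2) = (X 0 + X 1 + 2 * X 2) *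
      ((X 0 + X 1 - 2 * X 2) * (X 0 + X 1 - 4 * X 2) * v 2)
    rw [map_add, map_add, hX0, hX1, h2]
    rw [pC] at h0
    linear_combination h0
  · change vf b c v (X 0 + X 1 - 2 * X 2) = (X 0 + X 1 - 2 * X 2) *
      ((X 0 + X 1 + 2 * X 2) * (X 0 + X 1 - 4 * X 2) * v 2)
    rw [map_sub, map_add, hX0, hX1, h2]
    rw [pC] at h0
    linear_combination h0
  · change vf b c v (X 0 + X 1 - 4 * X 2) = (X 0 + X 1 - 4 * X 2) *
      ((X 0 + X 1 + 2 * X 2) * (X 0 + X 1 - 2 * X 2) * v 2)
    rw [map_sub, map_add, hX0, hX1, h4]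
    rw [pC] at h0
    linear_combination h0
  · exact hX3
  · change vf b c v (X 0 + X 1 + X 3) = (X 0 + X 1 + X 3) * v 3
    rw [map_add, map_add, hX0, hX1, hX3]
    linear_combination h0 + h1
  · exact hX4

/-- The projection to `D_0(A)`. -/
noncomputable def toD (b c : ℤ) (v : Fin 6 → PolyS 4) : Derivation ℂ (PolyS 4) (PolyS 4) :=
  vf b c v - (C (1 / 13 : ℂ) * ∑ j, tvec b c v j) • euler 4

theorem inv13 : (C (1 / 13 : ℂ) : PolyS 4) * 13 = 1 := by
  have : (C (13 : ℂ) : PolyS 4) = 13 := map_ofNat C 13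
  rw [← this, ← C_mul]
  norm_num

theorem toD_form (v : Fin 6 → PolyS 4) (hv : v ∈ KerM (matP (b : ℂ) (c : ℂ))) (j : Fin 13) :
    toD b c v ((arr b c h).form j) =
      (arr b c h).form j * (tvec b c v j - C (1 / 13 : ℂ) * ∑ j, tvec b c v j) := by
  have h1 : euler 4 ((arr b c h).form j) = (arr b c h).form j := euler_linForm _
  have h2 : vf b c v ((arr b c h).form j) = (arr b c h).form j * tvec b c v j := by
    rw [form_eq]
    exact vf_formVec b c v hv j
  change vf b c v ((arr b c h).form j) -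
    (C (1 / 13 : ℂ) * ∑ j, tvec b c v j) * euler 4 ((arr b c h).form j) = _
  rw [h1, h2]
  ring

theorem toD_mem (v : Fin 6 → PolyS 4) (hv : v ∈ KerM (matP (b : ℂ) (c : ℂ))) :
    toD b c v ∈ (arr b c h).D₀ := by
  refine ⟨?_, ?_⟩
  · intro j
    rw [toD_form b c h v hv j]
    exact Dvd.intro _ rfl
  · rw [derivation_Q (arr b c h) (toD b c v) _ (toD_form b c h v hv)]
    have : ∑ j : Fin 13, (tvec b c v j - C (1 / 13 : ℂ) * ∑ j, tvec b c v j) = 0 := by
      rw [Finset.sum_sub_distrib, Finset.sum_const, Finset.card_univ, Fintype.card_fin,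
        nsmul_eq_mul]
      push_cast
      linear_combination (-(∑ j, tvec b c v j)) * inv13
    change (∑ j : Fin 13, (tvec b c v j - C (1 / 13 : ℂ) * ∑ j, tvec b c v j)) * _ = 0
    rw [this, zero_mul]

theorem tvec_add (v w : Fin 6 → PolyS 4) : tvec b c (v + w) = tvec b c v + tvec b c w := by
  funext j
  fin_cases j <;> simp [tvec] <;> ring

theorem tvec_smul (r : PolyS 4) (v : Fin 6 → PolyS 4) : tvec b c (r • v) = r • tvec b c v := by
  funext j
  fin_cases j <;> simp [tvec] <;> ring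

theorem vf_add (v w : Fin 6 → PolyS 4) : vf b c (v + w) = vf b c v + vf b c w := by
  apply MvPolynomial.derivation_ext
  intro i
  rw [Derivation.add_apply, vf, vf, vf, mkDerivation_X, mkDerivation_X, mkDerivation_X]
  fin_cases i <;> simp [comps] <;> ring

theorem vf_smul (r : PolyS 4) (v : Fin 6 → PolyS 4) : vf b c (r • v) = r • vf b c v := by
  apply MvPolynomial.derivation_ext
  intro i
  rw [Derivation.smul_apply, vf, vf, mkDerivation_X, mkDerivation_X]
  fin_cases i <;> simp [comps] <;> ring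

/-- The linear map from the kernel to `D_0(A)`. -/
noncomputable def toD₀ : KerM (matP (b : ℂ) (c : ℂ)) →ₗ[PolyS 4] (arr b c h).D₀sub where
  toFun v := ⟨toD b c v.1, toD_mem b c h v.1 v.2⟩
  map_add' v w := by
    apply Subtype.ext
    change toD b c (v.1 + w.1) = toD b c v.1 + toD b c w.1
    unfold toD
    rw [vf_add, tvec_add]
    simp only [Pi.add_apply, Finset.sum_add_distrib, mul_add, add_smul]
    abel
  map_smul' r v := by
    apply Subtype.ext
    change toD b c (r • v.1) = r • toD b c v.1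
    unfold toD
    rw [vf_smul, tvec_smul]
    simp only [Pi.smul_apply, smul_eq_mul, ← Finset.mul_sum, smul_sub, smul_smul]
    rw [mul_left_comm]

end Forms

end Pool.Agent.H43.StableFree
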