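import Mathlib

/-!
Hyperplane arrangements in projective `n`-space over the complex numbers, their intersection
lattices, logarithmic derivations, the Cech complex of the sheaf of logarithmic vector fields on
the standard affine cover, and stable freeness.
-/

namespace Pool.Agent.H43.StableFree

/-- The polynomial ring `S = ℂ[x_0, …, x_n]`. -/
abbrev PolyS (n : ℕ) : Type := MvPolynomial (Fin (n + 1)) ℂ

/-- The field `ℂ(x_0, …, x_n)` of rational functions. -/
abbrev RatS (n : ℕ) : Type := FractionRing (PolyS n)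

/-- The linear hyperplane `{v ∈ ℂ^{n+1} : a_0 v_0 + … + a_n v_n = 0}`. -/
def hyper {n : ℕ} (a : Fin (n + 1) → ℂ) : Set (Fin (n + 1) → ℂ) := {v | ∑ i, a i * v i = 0}

/-- An arrangement in `ℙ^n`: a finite family of pairwise distinct hyperplanes `V(α_j)`,
given by nonzero linear forms `α_j = ∑ i, a_{j,i} x_i`. -/
structure Arrangement (n : ℕ) where
  /-- the number of hyperplanes -/
  d : ℕ
  /-- the coefficient vectors of the linear forms -/
  a : Fin d → Fin (n + 1) → ℂ
  /-- each linear form is nonzero -/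
  ne_zero : ∀ j, ∃ i, a j i ≠ 0
  /-- the hyperplanes are pairwise distinct -/
  distinct : ∀ j j', hyper (a j) = hyper (a j') → j = j'

namespace Arrangement

variable {n : ℕ} (A : Arrangement n)

/-- The set of all intersections of subfamilies of the linear hyperplanes `ker α_j`
(the empty intersection being `ℂ^{n+1}`). -/
def flats : Set (Set (Fin (n + 1) → ℂ)) :=
  {Y | ∃ J : Set (Fin A.d), Y = ⋂ j ∈ J, hyper (A.a j)}

/-- The intersection lattices of two arrangements (the sets of intersections, ordered by reverse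
inclusion) are isomorphic posets. -/
def SameLattice (A B : Arrangement n) : Prop :=
  ∃ e : A.flats ≃ B.flats, ∀ Y Z : A.flats, (Z : Set (Fin (n + 1) → ℂ)) ⊆ Y ↔
    (e Z : Set (Fin (n + 1) → ℂ)) ⊆ e Y

/-- The linear form `α_j` as an element of `S`. -/
noncomputable def form (j : Fin A.d) : PolyS n := ∑ i, MvPolynomial.C (A.a j i) * MvPolynomial.X i

/-- The defining polynomial `Q = ∏ j, α_j`. -/
noncomputable def Q : PolyS n := ∏ j, A.form j

/-- The module `D(A)` of logarithmic derivations: those `θ` with `θ(α_j) ∈ α_j S` for all `j`. -/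
def D : Set (Derivation ℂ (PolyS n) (PolyS n)) := {θ | ∀ j, A.form j ∣ θ (A.form j)}

/-- The module `D_0(A)` of those `θ ∈ D(A)` with `θ(Q) = 0`. -/
def D₀ : Set (Derivation ℂ (PolyS n) (PolyS n)) := {θ | θ ∈ A.D ∧ θ A.Q = 0}

end Arrangement

/-- The monomial `x_{σ_0} ⋯ x_{σ_{q-1}}` attached to a tuple of indices. -/
noncomputable def xprod {n q : ℕ} (σ : Fin q → Fin (n + 1)) : PolyS n :=
  ∏ k, MvPolynomial.X (σ k)

/-- The sections, in all twists, of the sheaf `T_A` associated with `D_0(A)` over the open set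
where the variables `x_{σ_0}, …, x_{σ_{q-1}}` do not vanish, that is the elements of the
localization of `D_0(A)` at the powers of the monomial `x_{σ_0} ⋯ x_{σ_{q-1}}`: the rational
vector fields `∑ i, v_i ∂/∂x_i` whose product with some power of this monomial is in `D_0(A)`. -/
def Arrangement.IsSection {n : ℕ} (A : Arrangement n) {q : ℕ} (σ : Fin q → Fin (n + 1))
    (v : Fin (n + 1) → RatS n) : Prop :=
  ∃ N : ℕ, ∃ θ ∈ A.D₀, ∀ i, algebraMap (PolyS n) (RatS n) (xprod σ ^ N) * v i =
    algebraMap (PolyS n) (RatS n) (θ (MvPolynomial.X i))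

/-- The Cech differential on families of rational vector fields indexed by tuples of indices:
`(d c)_σ = ∑ k, (-1)^k c_{σ with σ_k left out}`. -/
noncomputable def cechDiff {n q : ℕ} (c : (Fin q → Fin (n + 1)) → Fin (n + 1) → RatS n)
    (σ : Fin (q + 1) → Fin (n + 1)) (i : Fin (n + 1)) : RatS n :=
  ∑ k : Fin (q + 1), (-1) ^ (k : ℕ) * c (σ ∘ k.succAbove) i

/-- For `p ≥ 1`: the vanishing of `H^p_*(T_A)`, the sum over all twists of the `p`-th cohomology of
`T_A`, computed by the Cech complex of the standard affine cover of `ℙ^n`: every Cech `p`-cocycle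
of `T_A` is the coboundary of a Cech `(p-1)`-cochain of `T_A`. -/
def Arrangement.CohomologyVanishes {n : ℕ} (A : Arrangement n) (p : ℕ) : Prop :=
  ∀ c : (Fin (p + 1) → Fin (n + 1)) → Fin (n + 1) → RatS n, (∀ σ, A.IsSection σ (c σ)) →
    (∀ σ i, cechDiff c σ i = 0) →
    ∃ b : (Fin p → Fin (n + 1)) → Fin (n + 1) → RatS n, (∀ σ, A.IsSection σ (b σ)) ∧
      ∀ σ i, cechDiff b σ i = c σ i

/-- Stable freeness: `H^p_*(T_A) = 0` for all `2 ≤ p ≤ n - 2`. -/
def Arrangement.StablyFree {n : ℕ} (A : Arrangement n) : Prop :=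
  ∀ p : ℕ, 2 ≤ p → p + 2 ≤ n → A.CohomologyVanishes p

end Pool.Agent.H43.StableFree
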