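import Pool.Agent.H43.StableFree.Laurent

/-!
The second Cech cohomology of a kernel of a matrix, expressed by the cokernel.
-/

open MvPolynomial

namespace Pool.Agent.H43.StableFree

variable {n : ℕ}

section InL

variable {p q : ℕ}

theorem InL.zero (σ : Fin p → Fin (n + 1)) : InL σ (0 : LaurentS n) := by
  intro a ha; simp at ha

theorem InL.add {σ : Fin p → Fin (n + 1)} {v w : LaurentS n} (hv : InL σ v) (hw : InL σ w) :
    InL σ (v + w) := by
  intro a ha i hi
  rw [AddMonoidAlgebra.coeff_add, Finsupp.add_apply] at ha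
  by_cases h : v.coeff a = 0
  · rw [h, zero_add] at ha
    exact hw a ha i hi
  · exact hv a h i hi

theorem InL.sum {ι : Type*} (s : Finset ι) {σ : Fin p → Fin (n + 1)} {f : ι → LaurentS n}
    (hf : ∀ k ∈ s, InL σ (f k)) : InL σ (∑ k ∈ s, f k) := by
  classical
  induction s using Finset.induction_on with
  | empty => simpa using InL.zero σ
  | insert a s ha ih =>
    rw [Finset.sum_insert ha]
    exact (hf a (Finset.mem_insert_self a s)).add
      (ih fun k hk => hf k (Finset.mem_insert_of_mem hk))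

theorem InL.smul {σ : Fin p → Fin (n + 1)} {v : LaurentS n} (r : PolyS n) (hv : InL σ v) :
    InL σ (r • v) := by
  rw [← mem_locSub_iff] at hv ⊢
  obtain ⟨N, m, h⟩ := hv
  refine ⟨N, r * m, ?_⟩
  rw [smul_comm, h, ← smul_eq_mul, map_smul]

theorem InL.neg {σ : Fin p → Fin (n + 1)} {v : LaurentS n} (hv : InL σ v) : InL σ (-v) := by
  have := hv.smul (-1 : PolyS n)
  simpa using this

theorem InL.sub {σ : Fin p → Fin (n + 1)} {v w : LaurentS n} (hv : InL σ v) (hw : InL σ w) :
    InL σ (v - w) := by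
  rw [sub_eq_add_neg]
  exact hv.add hw.neg

theorem InL.mono {σ : Fin p → Fin (n + 1)} {τ : Fin q → Fin (n + 1)} {v : LaurentS n}
    (h : ∀ k, ∃ l, τ l = σ k) (hv : InL σ v) : InL τ v := by
  intro a ha i hi
  refine hv a ha i ?_
  intro k hk
  obtain ⟨l, hl⟩ := h k
  exact hi l (hl.trans hk)

theorem InL.incl (σ : Fin p → Fin (n + 1)) (s : PolyS n) : InL σ (StableFree.incl n s) := by
  intro a ha i _
  exact (mem_incl_iff _).mp ⟨s, rfl⟩ a ha i

theorem InL.dV {σ : Fin (p + 2) → Fin (n + 1)} {c : (Fin (p + 1) → Fin (n + 1)) → LaurentS n}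
    (hc : ∀ τ, InL τ (c τ)) : InL σ (StableFree.dV c σ) := by
  unfold StableFree.dV
  refine InL.sum _ fun k _ => InL.smul _ ?_
  exact InL.mono (fun l => ⟨k.succAbove l, rfl⟩) (hc _)

end InL

section dV

variable {V W : Type*} [AddCommGroup V] [Module (PolyS n) V] [AddCommGroup W]
  [Module (PolyS n) W]

theorem dV_map (f : V →ₗ[PolyS n] W) {p : ℕ} (c : (Fin (p + 1) → Fin (n + 1)) → V) :
    dV (fun τ => f (c τ)) = fun σ => f (dV c σ) := by
  funext σ
  simp [dV, map_sum]

theorem dV_sub {p : ℕ} (c c' : (Fin (p + 1) → Fin (n + 1)) → V) :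
    dV (c - c') = dV c - dV c' := by
  funext σ
  simp [dV, smul_sub]

theorem dV_const (s : V) : dV (n := n) (fun _ : Fin 1 → Fin (n + 1) => s) = 0 := by
  funext σ
  simp [dV, Fin.sum_univ_two]

theorem dV_dV_zero (c : (Fin 1 → Fin (n + 1)) → V) : dV (dV c) = 0 := by
  funext σ
  simp only [dV, Fin.sum_univ_succ, Fin.sum_univ_zero, Function.comp_assoc, Pi.zero_apply]
  have e1 : ((0 : Fin 3).succAbove ∘ (0 : Fin 2).succAbove : Fin 1 → Fin 3)
      = (Fin.succ 0 : Fin 3).succAbove ∘ (0 : Fin 2).succAbove := by decide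
  have e2 : ((0 : Fin 3).succAbove ∘ (Fin.succ 0 : Fin 2).succAbove : Fin 1 → Fin 3)
      = (Fin.succ (Fin.succ 0) : Fin 3).succAbove ∘ (0 : Fin 2).succAbove := by decide
  have e3 : ((Fin.succ 0 : Fin 3).succAbove ∘ (Fin.succ 0 : Fin 2).succAbove : Fin 1 → Fin 3)
      = (Fin.succ (Fin.succ 0) : Fin 3).succAbove ∘ (Fin.succ 0 : Fin 2).succAbove := by decide
  rw [e1, e2, e3]
  simp only [Fin.val_zero, Fin.val_succ, pow_zero, pow_succ, one_smul, smul_add, neg_smul,
    zero_add, mul_neg, mul_one, neg_neg, add_zero]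
  abel

theorem dV_dV_one (c : (Fin 2 → Fin (n + 1)) → V) : dV (dV c) = 0 := by
  funext σ
  simp only [dV, Fin.sum_univ_succ, Fin.sum_univ_zero, Function.comp_assoc, Pi.zero_apply]
  have e1 : ((0 : Fin 4).succAbove ∘ (0 : Fin 3).succAbove : Fin 2 → Fin 4)
      = (Fin.succ 0 : Fin 4).succAbove ∘ (0 : Fin 3).succAbove := by decide
  have e2 : ((0 : Fin 4).succAbove ∘ (Fin.succ 0 : Fin 3).succAbove : Fin 2 → Fin 4)
      = (Fin.succ (Fin.succ 0) : Fin 4).succAbove ∘ (0 : Fin 3).succAbove := by decide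
  have e3 : ((0 : Fin 4).succAbove ∘ (Fin.succ (Fin.succ 0) : Fin 3).succAbove : Fin 2 → Fin 4)
      = (Fin.succ (Fin.succ (Fin.succ 0)) : Fin 4).succAbove ∘ (0 : Fin 3).succAbove := by decide
  have e4 : ((Fin.succ 0 : Fin 4).succAbove ∘ (Fin.succ 0 : Fin 3).succAbove : Fin 2 → Fin 4)
      = (Fin.succ (Fin.succ 0) : Fin 4).succAbove ∘ (Fin.succ 0 : Fin 3).succAbove := by decide
  have e5 : ((Fin.succ 0 : Fin 4).succAbove ∘ (Fin.succ (Fin.succ 0) : Fin 3).succAbove :
      Fin 2 → Fin 4)
      = (Fin.succ (Fin.succ (Fin.succ 0)) : Fin 4).succAbove ∘ (Fin.succ 0 : Fin 3).succAbove := by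
    decide
  have e6 : ((Fin.succ (Fin.succ 0) : Fin 4).succAbove ∘
      (Fin.succ (Fin.succ 0) : Fin 3).succAbove : Fin 2 → Fin 4)
      = (Fin.succ (Fin.succ (Fin.succ 0)) : Fin 4).succAbove ∘
      (Fin.succ (Fin.succ 0) : Fin 3).succAbove := by decide
  rw [e1, e2, e3, e4, e5, e6]
  simp only [Fin.val_zero, Fin.val_succ, pow_zero, pow_succ, one_smul, smul_add, neg_smul,
    zero_add, mul_neg, mul_one, neg_neg, add_zero]
  abel

theorem dV_apply_coord {m p : ℕ} (c : (Fin (p + 1) → Fin (n + 1)) → (Fin m → V))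
    (σ : Fin (p + 2) → Fin (n + 1)) (i : Fin m) :
    dV c σ i = dV (fun τ => c τ i) σ := by
  simp [dV]

end dV

section Kernel

variable {k m : ℕ} (P : Matrix (Fin k) (Fin m) (PolyS n))

/-- The kernel of a matrix. -/
noncomputable abbrev KerM : Submodule (PolyS n) (Fin m → PolyS n) := LinearMap.ker P.mulVecLin

/-- The map of Laurent vectors induced by a matrix over `S`. -/
noncomputable def phiL : (Fin m → LaurentS n) →ₗ[PolyS n] (Fin k → LaurentS n) :=
  ((P.map (incl n)).mulVecLin).restrictScalars (PolyS n)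

theorem phiL_incl (v : Fin m → PolyS n) :
    phiL P (fun i => incl n (v i)) = fun i => incl n (P.mulVec v i) := by
  funext i
  exact (RingHom.map_mulVec (incl n) P v i).symm

theorem InL_phiL {p : ℕ} {σ : Fin p → Fin (n + 1)} {v : Fin m → LaurentS n}
    (hv : ∀ i, InL σ (v i)) (r : Fin k) : InL σ (phiL P v r) := by
  change InL σ (((P.map (incl n)).mulVec v) r)
  simp only [Matrix.mulVec, dotProduct, Matrix.map_apply]
  refine InL.sum _ fun i _ => ?_
  exact InL.smul (P r i) (hv i)

/-- Being the image of a vector of Laurent polynomials with allowed denominators. -/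
def InE {p : ℕ} (σ : Fin p → Fin (n + 1)) (v : Fin k → LaurentS n) : Prop :=
  ∃ t : Fin m → LaurentS n, (∀ i, InL σ (t i)) ∧ phiL P t = v

/-- The embedding of the kernel in vectors of Laurent polynomials. -/
noncomputable def jK : KerM P →ₗ[PolyS n] (Fin m → LaurentS n) where
  toFun v i := incl n (v.1 i)
  map_add' v w := by funext i; simp
  map_smul' r v := by funext i; simp [smul_eq]

theorem jK_injective : Function.Injective (jK P) := by
  intro v w h
  apply Subtype.ext
  funext i
  exact incl_injective (congrFun h i)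

theorem varUnits_pi (m : ℕ) : VarUnits (n := n) (Fin m → LaurentS n) := by
  intro i
  rw [Module.End.isUnit_iff]
  have h := fun i => (Module.End.isUnit_iff _).mp (varUnits_laurent (n := n) i)
  constructor
  · intro v w hvw
    funext l
    exact (h i).1 (congrFun hvw l)
  · intro v
    choose w hw using fun l => (h i).2 (v l)
    exact ⟨w, funext hw⟩

theorem mem_locSub_jK {p : ℕ} (σ : Fin p → Fin (n + 1)) (v : Fin m → LaurentS n) :
    v ∈ locSub (jK P) σ ↔ (∀ i, InL σ (v i)) ∧ phiL P v = 0 := by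
  constructor
  · rintro ⟨N, w, hw⟩
    constructor
    · intro i
      rw [← mem_locSub_iff]
      exact ⟨N, w.1 i, congrFun hw i⟩
    · apply (varUnits_pi (n := n) k).injective σ N
      rw [← map_smul, hw, smul_zero]
      have h : P.mulVec w.1 = 0 := w.2
      change phiL P (fun i => incl n (w.1 i)) = 0
      rw [phiL_incl, h]
      funext i
      simp
  · rintro ⟨h1, h2⟩
    choose N w hw using fun i => (mem_locSub_iff σ (v i)).mpr (h1 i)
    -- common exponent
    let N₀ := ∑ i, N i
    have hN : ∀ i, N i ≤ N₀ := fun i =>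
      Finset.single_le_sum (f := N) (fun _ _ => Nat.zero_le _) (Finset.mem_univ i)
    let w' : Fin m → PolyS n := fun i => xprod σ ^ (N₀ - N i) * w i
    have hw' : xprod σ ^ N₀ • v = fun i => incl n (w' i) := by
      funext i
      have := hw i
      simp only [Algebra.linearMap_apply, algebraMap_eq_incl] at this
      simp only [Pi.smul_apply, w', map_mul]
      rw [← this, smul_eq, smul_eq, ← mul_assoc, ← map_mul, ← pow_add, Nat.sub_add_cancel (hN i)]
    have hker : w' ∈ KerM P := by
      rw [LinearMap.mem_ker]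
      change P.mulVec w' = 0
      funext r
      apply incl_injective
      have h3 := phiL_incl P w'
      rw [← hw', map_smul, h2, smul_zero] at h3
      rw [← congrFun h3 r]
      simp
    exact ⟨N₀, ⟨w', hker⟩, hw'⟩

/-- `H^1` of the cokernel vanishes, in concrete terms. -/
def CokerCond : Prop :=
  ∀ a : (Fin 1 → Fin (n + 1)) → (Fin k → LaurentS n), (∀ τ r, InL τ (a τ r)) →
    (∀ σ : Fin 2 → Fin (n + 1), InE P σ (dV a σ)) →
    ∃ s : Fin k → PolyS n, ∀ τ, InE P τ (a τ - fun r => incl n (s r))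

theorem subsingleton_iff_cokerCond (hn : 3 ≤ n) :
    Subsingleton (HStar (n := n) (KerM P) 2) ↔ CokerCond P := by
  rw [transfer (varUnits_pi (n := n) m) (jK P) (jK_injective P) 1]
  simp only [mem_locSub_jK]
  constructor
  · intro h a ha hE
    choose b hb1 hb2 using hE
    obtain ⟨e, he, hde⟩ := h (dV b) (by
      intro σ
      refine ⟨fun i => ?_, ?_⟩
      · rw [dV_apply_coord]
        exact InL.dV fun τ => hb1 τ i
      · have h1 := congrFun (dV_map (phiL P) b) σ
        rw [← h1]
        have h2 : (fun τ => phiL P (b τ)) = dV a := funext hb2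
        rw [h2, dV_dV_zero]
        rfl) (dV_dV_one b)
    have h3 : ∀ i, ∃ b' : (Fin 1 → Fin (n + 1)) → LaurentS n, (∀ τ, InL τ (b' τ)) ∧
        dV b' = fun σ => (b - e) σ i := by
      intro i
      refine cech_S (p := 0) (by omega) (fun σ => (b - e) σ i) ?_ ?_
      · intro σ
        exact (hb1 σ i).sub ((he σ).1 i)
      · funext σ
        rw [← dV_apply_coord, dV_sub, hde, sub_self]
        rfl
    choose b' hb'1 hb'2 using h3
    have h4 : ∀ σ, dV (fun τ => fun i => b' i τ) σ = b σ - e σ := by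
      intro σ
      funext i
      rw [dV_apply_coord]
      exact congrFun (hb'2 i) σ
    let a' : (Fin 1 → Fin (n + 1)) → (Fin k → LaurentS n) :=
      a - fun τ => phiL P (fun i => b' i τ)
    have h5 : dV a' = 0 := by
      change dV (a - fun τ => phiL P (fun i => b' i τ)) = 0
      rw [dV_sub, dV_map (phiL P)]
      funext σ
      simp only [Pi.sub_apply, Pi.zero_apply]
      rw [h4 σ, map_sub, hb2 σ, (he σ).2]
      simp
    have h6 : ∀ r, ∃ s : PolyS n, ∀ τ, a' τ r = incl n s := by
      intro r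
      refine cech_S_zero (by omega) (fun τ => a' τ r) ?_ ?_
      · intro τ
        exact (ha τ r).sub (InL_phiL P (fun i => hb'1 i τ) r)
      · funext σ
        rw [← dV_apply_coord, h5]
        rfl
    choose s hs using h6
    refine ⟨s, fun τ => ⟨fun i => b' i τ, fun i => hb'1 i τ, ?_⟩⟩
    funext r
    have := hs r τ
    simp only [Pi.sub_apply]
    rw [← this]
    simp [a']
  · intro h c hc hdc
    have h1 : ∀ i, ∃ b : (Fin 2 → Fin (n + 1)) → LaurentS n, (∀ τ, InL τ (b τ)) ∧
        dV b = fun σ => c σ i := by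
      intro i
      refine cech_S (p := 1) (by omega) (fun σ => c σ i) (fun σ => (hc σ).1 i) ?_
      funext σ
      rw [← dV_apply_coord, hdc]
      rfl
    choose b hb1 hb2 using h1
    let b₁ : (Fin 2 → Fin (n + 1)) → (Fin m → LaurentS n) := fun τ i => b i τ
    have hdb : dV b₁ = c := by
      funext σ i
      rw [dV_apply_coord]
      exact congrFun (hb2 i) σ
    have h2 : dV (fun τ => phiL P (b₁ τ)) = 0 := by
      rw [dV_map (phiL P), hdb]
      funext σ
      rw [(hc σ).2]
      rfl
    have h3 : ∀ r, ∃ a : (Fin 1 → Fin (n + 1)) → LaurentS n, (∀ τ, InL τ (a τ)) ∧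
        dV a = fun σ => phiL P (b₁ σ) r := by
      intro r
      refine cech_S (p := 0) (by omega) (fun σ => phiL P (b₁ σ) r) ?_ ?_
      · intro σ
        exact InL_phiL P (fun i => hb1 i σ) r
      · funext σ
        rw [← dV_apply_coord (fun σ => phiL P (b₁ σ)), h2]
        rfl
    choose a ha1 ha2 using h3
    let a₁ : (Fin 1 → Fin (n + 1)) → (Fin k → LaurentS n) := fun τ r => a r τ
    have hda : ∀ σ, dV a₁ σ = phiL P (b₁ σ) := by
      intro σ
      funext r
      rw [dV_apply_coord]
      exact congrFun (ha2 r) σ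
    obtain ⟨s, hs⟩ := h a₁ (fun τ r => ha1 r τ)
      (fun σ => ⟨b₁ σ, fun i => hb1 i σ, (hda σ).symm⟩)
    choose b' hb'1 hb'2 using hs
    refine ⟨b₁ - dV b', ?_, ?_⟩
    · intro σ
      refine ⟨fun i => ?_, ?_⟩
      · rw [Pi.sub_apply, Pi.sub_apply, dV_apply_coord]
        exact (hb1 i σ).sub (InL.dV fun τ => hb'1 τ i)
      · rw [Pi.sub_apply, map_sub, ← hda σ]
        have h4 := congrFun (dV_map (phiL P) b') σ
        rw [← h4]
        have h5 : (fun τ => phiL P (b' τ)) = a₁ - fun _ => fun r => incl n (s r) := by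
          funext τ
          exact hb'2 τ
        rw [h5, dV_sub, dV_const]
        simp
    · rw [dV_sub, dV_dV_zero, hdb, sub_zero]

end Kernel

end Pool.Agent.H43.StableFree
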