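import Pool.Agent.H43.StableFree.Arr

/-!
The identification of `D_0(A)` with the kernel of the matrix.
-/

open MvPolynomial

namespace Pool.Agent.H43.StableFree

/-! ### Divisibility by products of linear forms -/

/-- Substituting `X i ↦ C r * X 2 - m`. -/
noncomputable def lsub (i : Fin 5) (m : PolyS 4) (r : ℂ) : PolyS 4 →ₐ[ℂ] PolyS 4 :=
  aeval fun j => if j = i then C r * X 2 - m else X j

theorem lsub_dvd (i : Fin 5) (m : PolyS 4) (r : ℂ) (p : PolyS 4) :
    ∃ q, p = lsub i m r p + (X i + m - C r * X 2) * q := by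
  have h : (Ideal.Quotient.mkₐ ℂ (Ideal.span {(X i + m - C r * X 2 : PolyS 4)})).comp
      (lsub i m r) = Ideal.Quotient.mkₐ ℂ (Ideal.span {(X i + m - C r * X 2 : PolyS 4)}) := by
    apply MvPolynomial.algHom_ext
    intro j
    rw [AlgHom.comp_apply]
    by_cases hj : j = i
    · subst hj
      apply Ideal.Quotient.eq.mpr
      rw [Ideal.mem_span_singleton']
      refine ⟨-1, ?_⟩
      simp [lsub]
      ring
    · simp [lsub, hj]
  have h1 := AlgHom.congr_fun h p
  have h2 : p - lsub i m r p ∈ Ideal.span {(X i + m - C r * X 2 : PolyS 4)} := by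
    rw [← Ideal.Quotient.eq]
    exact h1.symm
  obtain ⟨q, hq⟩ := Ideal.mem_span_singleton'.mp h2
  exact ⟨q, by linear_combination -hq⟩

theorem lsub_form (i : Fin 5) (hi : i ≠ 2) (m : PolyS 4) (r s : ℂ)
    (hm : lsub i m r m = m) :
    lsub i m r (X i + m - C s * X 2) = C (r - s) * X 2 := by
  have h1 : lsub i m r (X i) = C r * X 2 - m := by simp [lsub]
  have h2 : lsub i m r (X 2) = X 2 := by simp [lsub, Ne.symm hi]
  have h3 : lsub i m r (C s) = C s := by simp [lsub]
  rw [map_sub, map_add, map_mul, h1, h2, h3, hm, C_sub]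
  ring

theorem dvd_two (i : Fin 5) (hi : i ≠ 2) (m : PolyS 4) (hm : ∀ r, lsub i m r m = m)
    (p : PolyS 4) {s : ℂ} (a : PolyS 4) (q : PolyS 4)
    (ha : lsub i m s a ≠ 0)
    (h1 : p = a * q) (h2 : ∃ q', p = (X i + m - C s * X 2) * q') :
    ∃ q', q = (X i + m - C s * X 2) * q' := by
  obtain ⟨q', hq'⟩ := h2
  have h3 : lsub i m s q = 0 := by
    have h4 : lsub i m s (a * q) = 0 := by
      rw [← h1, hq', map_mul, lsub_form i hi m s s (hm s)]
      simp
    rw [map_mul] at h4
    rcases mul_eq_zero.mp h4 with h5 | h5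
    · exact absurd h5 ha
    · exact h5
  obtain ⟨q'', hq''⟩ := lsub_dvd i m s q
  exact ⟨q'', by rw [h3, zero_add] at hq''; exact hq''⟩

theorem C_mul_X_ne_zero {r : ℂ} (hr : r ≠ 0) : (C r * X 2 : PolyS 4) ≠ 0 :=
  mul_ne_zero (by rwa [Ne, C_eq_zero]) (MvPolynomial.X_ne_zero _)

theorem dvd_three (i : Fin 5) (hi : i ≠ 2) (m : PolyS 4) (hm : ∀ r, lsub i m r m = m)
    (p : PolyS 4) {r s t : ℂ} (hrs : r ≠ s) (hrt : r ≠ t) (hst : s ≠ t)
    (h1 : ∃ q, p = (X i + m - C r * X 2) * q) (h2 : ∃ q, p = (X i + m - C s * X 2) * q)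
    (h3 : ∃ q, p = (X i + m - C t * X 2) * q) :
    ∃ q, p = (X i + m - C r * X 2) * (X i + m - C s * X 2) * (X i + m - C t * X 2) * q := by
  obtain ⟨q₁, hq₁⟩ := h1
  obtain ⟨q₂, hq₂⟩ := dvd_two i hi m hm p (X i + m - C r * X 2) q₁ (by
    rw [lsub_form i hi m s r (hm s)]
    exact C_mul_X_ne_zero (sub_ne_zero.mpr hrs.symm)) hq₁ h2
  obtain ⟨q₃, hq₃⟩ := dvd_two i hi m hm p ((X i + m - C r * X 2) * (X i + m - C s * X 2)) q₂
    (by
      rw [map_mul, lsub_form i hi m t r (hm t), lsub_form i hi m t s (hm t)]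
      exact mul_ne_zero (C_mul_X_ne_zero (sub_ne_zero.mpr hrt.symm))
        (C_mul_X_ne_zero (sub_ne_zero.mpr hst.symm)))
    (by rw [hq₁, hq₂]; ring) h3
  exact ⟨q₃, by rw [hq₁, hq₂, hq₃]; ring⟩

theorem lsub_zero (i : Fin 5) (r : ℂ) : lsub i 0 r 0 = 0 := map_zero _

theorem lsub_one (r : ℂ) : lsub 0 (X 1) r (X 1) = X 1 := by
  simp [lsub]

section

variable (b c : ℤ) (h : GoodCoef b c)

theorem vf_X0 (v : Fin 6 → PolyS 4) : vf b c v (X 0) = pA b * v 0 := by simp [vf, comps]
theorem vf_X1 (v : Fin 6 → PolyS 4) : vf b c v (X 1) = pB c * v 1 := by simp [vf, comps]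
theorem vf_X2 (v : Fin 6 → PolyS 4) : vf b c v (X 2) = 0 := by simp [vf, comps]
theorem vf_X3 (v : Fin 6 → PolyS 4) : vf b c v (X 3) = X 3 * (v 3 - v 4) := by simp [vf, comps]
theorem vf_X4 (v : Fin 6 → PolyS 4) : vf b c v (X 4) = X 4 * v 5 := by simp [vf, comps]

theorem sub_C_ne_zero (i : Fin 5) (hi : i ≠ 2) (m : PolyS 4) (hm : ∀ r, lsub i m r m = m)
    (r : ℂ) : (X i + m - C r * X 2 : PolyS 4) ≠ 0 := by
  intro h0
  have h1 := lsub_form i hi m (r + 1) r (hm _)
  rw [h0, map_zero] at h1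
  exact C_mul_X_ne_zero (by simp) h1.symm

theorem pA_ne_zero (b : ℂ) : pA b ≠ 0 := by
  have h1 := sub_C_ne_zero 0 (by decide) 0 (lsub_zero 0)
  rw [pA]
  refine mul_ne_zero (mul_ne_zero ?_ ?_) ?_
  · have := h1 (-1); simpa using this
  · have := h1 1; simpa using this
  · have := h1 b; simpa using this

theorem pB_ne_zero (c : ℂ) : pB c ≠ 0 := by
  have h1 := sub_C_ne_zero 1 (by decide) 0 (lsub_zero 1)
  rw [pB]
  refine mul_ne_zero (mul_ne_zero ?_ ?_) ?_
  · have := h1 (-1); simpa using this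
  · have := h1 1; simpa using this
  · have := h1 c; simpa using this

theorem pC_ne_zero : pC ≠ 0 := by
  have h1 := sub_C_ne_zero 0 (by decide) (X 1) lsub_one
  rw [pC]
  refine mul_ne_zero (mul_ne_zero ?_ ?_) ?_
  · have := h1 (-2); simpa [C_two] using this
  · have := h1 2; simpa [C_two] using this
  · have := h1 4; simpa [C_four] using this

theorem l_ne_zero : (X 0 + X 1 + X 3 : PolyS 4) ≠ 0 := by
  intro h0
  have h1 := congrArg (MvPolynomial.eval (![1, 0, 0, 0, 0] : Fin 5 → ℂ)) h0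
  simp at h1

theorem toD₀_injective : Function.Injective (toD₀ b c h) := by
  refine (injective_iff_map_eq_zero (toD₀ b c h)).mpr ?_
  intro v hv
  have h0 : toD b c v.1 = 0 := congrArg Subtype.val hv
  obtain ⟨k0, k1⟩ := (mem_KerM b c v.1).mp v.2
  have hz := congrArg (fun θ : Derivation ℂ (PolyS 4) (PolyS 4) => θ (X 2)) h0
  simp only [toD, Derivation.sub_apply, Derivation.smul_apply, Derivation.zero_apply, vf_X2,
    euler, mkDerivation_X, smul_eq_mul, zero_sub, neg_eq_zero] at hz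
  have hT : C (1 / 13 : ℂ) * ∑ j, tvec b c v.1 j = 0 := by
    rcases mul_eq_zero.mp hz with h1 | h1
    · exact h1
    · exact absurd h1 (MvPolynomial.X_ne_zero _)
  have hvf : vf b c v.1 = 0 := by
    unfold toD at h0
    rw [hT, zero_smul, sub_zero] at h0
    exact h0
  have e0 : v.1 0 = 0 := by
    have := vf_X0 b c v.1
    rw [hvf, Derivation.zero_apply] at this
    exact (mul_eq_zero.mp this.symm).resolve_left (pA_ne_zero _)
  have e1 : v.1 1 = 0 := by
    have := vf_X1 b c v.1
    rw [hvf, Derivation.zero_apply] at this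
    exact (mul_eq_zero.mp this.symm).resolve_left (pB_ne_zero _)
  have e5 : v.1 5 = 0 := by
    have := vf_X4 b c v.1
    rw [hvf, Derivation.zero_apply] at this
    exact (mul_eq_zero.mp this.symm).resolve_left (MvPolynomial.X_ne_zero _)
  have e34 : v.1 3 - v.1 4 = 0 := by
    have := vf_X3 b c v.1
    rw [hvf, Derivation.zero_apply] at this
    exact (mul_eq_zero.mp this.symm).resolve_left (MvPolynomial.X_ne_zero _)
  have e2 : v.1 2 = 0 := by
    rw [e0, e1, mul_zero, mul_zero, zero_add] at k0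
    exact (mul_eq_zero.mp k0.symm).resolve_left pC_ne_zero
  have e3 : v.1 3 = 0 := by
    rw [e2, mul_zero] at k1
    have : (X 0 + X 1 + X 3) * v.1 3 = 0 := by
      linear_combination -k1 + X 3 * e34
    exact (mul_eq_zero.mp this).resolve_left l_ne_zero
  have e4 : v.1 4 = 0 := by rw [e3, zero_sub, neg_eq_zero] at e34; exact e34
  apply Subtype.ext
  funext i
  fin_cases i
  · exact e0
  · exact e1
  · exact e2
  · exact e3
  · exact e4
  · exact e5

theorem toD₀_surjective (hb1 : b ≠ 1) (hb2 : b ≠ -1) (hc1 : c ≠ 1) (hc2 : c ≠ -1) :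
    Function.Surjective (toD₀ b c h) := by
  rintro ⟨θ, hθ, hθQ⟩
  -- eigenvalue polynomials
  have ht : ∀ j, ∃ t, θ ((arr b c h).form j) = (arr b c h).form j * t := by
    intro j
    exact hθ j
  choose t ht using ht
  have hsum : ∑ j : Fin 13, t j = 0 := by
    have h1 := derivation_Q (arr b c h) θ t ht
    rw [hθQ] at h1
    exact (mul_eq_zero.mp h1.symm).resolve_right (Q_ne_zero _)
  change Fin 13 → PolyS 4 at t
  have hform : ∀ j : Fin 13, θ (formVec b c j) = formVec b c j * t j := by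
    intro j
    have := ht j
    rwa [form_eq] at this
  -- subtract a multiple of the Euler derivation
  set θ' : Derivation ℂ (PolyS 4) (PolyS 4) := θ - t 0 • euler 4 with hθ'
  have heu : ∀ j : Fin 13, euler 4 (formVec b c j) = formVec b c j := by
    intro j
    rw [← form_eq b c h]
    exact euler_linForm _
  have hform' : ∀ j : Fin 13, θ' (formVec b c j) = formVec b c j * (t j - t 0) := by
    intro j
    rw [hθ', Derivation.sub_apply, Derivation.smul_apply, heu, hform, smul_eq_mul]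
    ring
  have hX2 : θ' (X 2) = 0 := by
    have := hform' 0
    simpa [formVec] using this
  have hCX2 : ∀ r : ℂ, θ' (C r * X 2) = 0 := by
    intro r
    rw [Derivation.leibniz, hX2, derivation_C]
    simp
  have hbc : ∀ m : ℤ, m ≠ 1 → m ≠ -1 → (m : ℂ) ≠ 1 ∧ (m : ℂ) ≠ -1 := by
    intro m h1 h2
    exact ⟨by exact_mod_cast h1, by exact_mod_cast h2⟩
  obtain ⟨hb1', hb2'⟩ := hbc b hb1 hb2
  obtain ⟨hc1', hc2'⟩ := hbc c hc1 hc2
  -- first component
  obtain ⟨v0, hv0⟩ : ∃ q, θ' (X 0) = pA b * q := by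
    obtain ⟨q, hq⟩ := dvd_three 0 (by decide) 0 (lsub_zero 0) (θ' (X 0)) (r := -1) (s := 1)
      (t := b) (by norm_num) (Ne.symm hb2') (Ne.symm hb1')
      ⟨t 1 - t 0, by
        have := hform' 1
        simp only [formVec, Matrix.cons_val_one, Matrix.cons_val_zero, map_add, hX2,
          add_zero] at this
        rw [this]; simp⟩
      ⟨t 2 - t 0, by
        have := hform' 2
        simp only [formVec, Matrix.cons_val, map_sub, hX2, sub_zero] at this
        rw [this]; simp⟩
      ⟨t 3 - t 0, by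
        have := hform' 3
        simp only [formVec, Matrix.cons_val, map_sub, hCX2, sub_zero] at this
        rw [this]; simp⟩
    refine ⟨q, ?_⟩
    rw [hq, pA]
    simp only [C_neg, C_1]
    ring
  obtain ⟨v1, hv1⟩ : ∃ q, θ' (X 1) = pB c * q := by
    obtain ⟨q, hq⟩ := dvd_three 1 (by decide) 0 (lsub_zero 1) (θ' (X 1)) (r := -1) (s := 1)
      (t := c) (by norm_num) (Ne.symm hc2') (Ne.symm hc1')
      ⟨t 4 - t 0, by
        have := hform' 4
        simp only [formVec, Matrix.cons_val, map_add, hX2, add_zero] at this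
        rw [this]; simp⟩
      ⟨t 5 - t 0, by
        have := hform' 5
        simp only [formVec, Matrix.cons_val, map_sub, hX2, sub_zero] at this
        rw [this]; simp⟩
      ⟨t 6 - t 0, by
        have := hform' 6
        simp only [formVec, Matrix.cons_val, map_sub, hCX2, sub_zero] at this
        rw [this]; simp⟩
    refine ⟨q, ?_⟩
    rw [hq, pB]
    simp only [C_neg, C_1]
    ring
  have h2X2 : θ' (2 * X 2) = 0 := by rw [← C_two, hCX2]
  have h4X2 : θ' (4 * X 2) = 0 := by rw [← C_four, hCX2]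
  obtain ⟨v2, hv2⟩ : ∃ q, θ' (X 0 + X 1) = pC * q := by
    obtain ⟨q, hq⟩ := dvd_three 0 (by decide) (X 1) lsub_one (θ' (X 0 + X 1)) (r := -2) (s := 2)
      (t := 4) (by norm_num) (by norm_num) (by norm_num)
      ⟨t 7 - t 0, by
        have h7 : θ' (X 0 + X 1 + 2 * X 2) = (X 0 + X 1 + 2 * X 2) * (t 7 - t 0) := hform' 7
        rw [map_add _ (X 0 + X 1), h2X2, add_zero] at h7
        rw [h7, C_neg, C_two]; ring⟩
      ⟨t 8 - t 0, by
        have h7 : θ' (X 0 + X 1 - 2 * X 2) = (X 0 + X 1 - 2 * X 2) * (t 8 - t 0) := hform' 8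
        rw [map_sub _ (X 0 + X 1), h2X2, sub_zero] at h7
        rw [h7, C_two]⟩
      ⟨t 9 - t 0, by
        have h7 : θ' (X 0 + X 1 - 4 * X 2) = (X 0 + X 1 - 4 * X 2) * (t 9 - t 0) := hform' 9
        rw [map_sub _ (X 0 + X 1), h4X2, sub_zero] at h7
        rw [h7, C_four]⟩
    refine ⟨q, ?_⟩
    rw [hq, pC, C_neg, C_two, C_four]
    ring
  have hX3 : θ' (X 3) = X 3 * (t 10 - t 0) := hform' 10
  have hX4 : θ' (X 4) = X 4 * (t 12 - t 0) := hform' 12
  have h11 : θ' (X 0 + X 1 + X 3) = (X 0 + X 1 + X 3) * (t 11 - t 0) := hform' 11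
  rw [map_add _ (X 0 + X 1), hv2, hX3] at h11
  have hadd : pA b * v0 + pB c * v1 = pC * v2 := by
    rw [← hv0, ← hv1, ← hv2, map_add]
  let v : Fin 6 → PolyS 4 := ![v0, v1, v2, t 11 - t 0, t 11 - t 10, t 12 - t 0]
  have hv : v ∈ KerM (matP (b : ℂ) (c : ℂ)) := by
    rw [mem_KerM]
    refine ⟨hadd, ?_⟩
    change pC * v2 = (X 0 + X 1) * (t 11 - t 0) + X 3 * (t 11 - t 10)
    linear_combination h11
  have hvf : vf b c v = θ' := by
    apply MvPolynomial.derivation_ext
    intro i
    fin_cases i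
    · exact (vf_X0 b c v).trans hv0.symm
    · exact (vf_X1 b c v).trans hv1.symm
    · exact (vf_X2 b c v).trans hX2.symm
    · refine (vf_X3 b c v).trans (Eq.trans ?_ hX3.symm)
      change X 3 * (t 11 - t 0 - (t 11 - t 10)) = X 3 * (t 10 - t 0)
      ring
    · exact (vf_X4 b c v).trans hX4.symm
  refine ⟨⟨v, hv⟩, ?_⟩
  apply Subtype.ext
  change toD b c v = θ
  have htv : ∀ j : Fin 13, tvec b c v j = t j - t 0 := by
    intro j
    have h1 := vf_formVec b c v hv j
    rw [hvf, hform'] at h1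
    have h2 : formVec b c j ≠ 0 := by
      rw [← form_eq b c h]
      exact form_ne_zero _ _
    exact (mul_left_cancel₀ h2 h1).symm
  have hts : ∑ j, tvec b c v j = -13 * t 0 := by
    simp only [htv]
    rw [Finset.sum_sub_distrib, hsum, Finset.sum_const, Finset.card_univ, Fintype.card_fin,
      nsmul_eq_mul]
    push_cast
    ring
  unfold toD
  rw [hvf, hts, hθ']
  have h3 : (C (1 / 13 : ℂ) : PolyS 4) * (-13 * t 0) = -t 0 := by
    linear_combination (-t 0) * inv13
  rw [h3]
  apply MvPolynomial.derivation_ext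
  intro i
  simp only [Derivation.sub_apply, Derivation.smul_apply, smul_eq_mul]
  ring

/-- The identification of the kernel with `D_0(A)`. -/
noncomputable def equivD₀ (hb1 : b ≠ 1) (hb2 : b ≠ -1) (hc1 : c ≠ 1) (hc2 : c ≠ -1) :
    KerM (matP (b : ℂ) (c : ℂ)) ≃ₗ[PolyS 4] (arr b c h).D₀sub :=
  LinearEquiv.ofBijective (toD₀ b c h)
    ⟨toD₀_injective b c h, toD₀_surjective b c h hb1 hb2 hc1 hc2⟩

end

/-! ### Invariance of the Cech cohomology under isomorphism -/

theorem subsingleton_congr {n k m : ℕ} (P : Matrix (Fin k) (Fin m) (PolyS n)) {M : Type*}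
    [AddCommGroup M] [Module (PolyS n) M] (e : KerM P ≃ₗ[PolyS n] M) (p : ℕ) :
    Subsingleton (HStar (n := n) M (p + 1)) ↔
      Subsingleton (HStar (n := n) (KerM P) (p + 1)) := by
  rw [transfer (varUnits_pi (n := n) m) (jK P) (jK_injective P) p,
    transfer (varUnits_pi (n := n) m) (jK P ∘ₗ e.symm.toLinearMap)
      ((jK_injective P).comp e.symm.injective) p]
  have h : ∀ {q : ℕ} (σ : Fin q → Fin (n + 1)),
      locSub (jK P ∘ₗ e.symm.toLinearMap) σ = locSub (jK P) σ := by
    intro q σ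
    ext v
    constructor
    · rintro ⟨N, w, hw⟩
      exact ⟨N, e.symm w, hw⟩
    · rintro ⟨N, w, hw⟩
      exact ⟨N, e w, by rw [hw]; simp⟩
  simp only [h]

/-! ### The official definition of the vanishing of cohomology -/

/-- The coefficients of a derivation in `D_0(A)` as rational functions. -/
noncomputable def jD {n : ℕ} (A : Arrangement n) : A.D₀sub →ₗ[PolyS n] (Fin (n + 1) → RatS n) where
  toFun θ i := algebraMap (PolyS n) (RatS n) (θ.1 (X i))
  map_add' θ η := by
    funext i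
    simp
  map_smul' r θ := by
    funext i
    simp [Algebra.smul_def]

theorem jD_injective {n : ℕ} (A : Arrangement n) : Function.Injective (jD A) := by
  intro θ η h
  apply Subtype.ext
  apply MvPolynomial.derivation_ext
  intro i
  exact IsFractionRing.injective (PolyS n) (RatS n) (congrFun h i)

theorem varUnits_rat {n : ℕ} : VarUnits (n := n) (Fin (n + 1) → RatS n) := by
  intro i
  rw [Module.End.isUnit_iff]
  have h0 : algebraMap (PolyS n) (RatS n) (X i) ≠ 0 := by
    intro h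
    apply MvPolynomial.X_ne_zero (R := ℂ) i
    exact IsFractionRing.injective (PolyS n) (RatS n) (by rw [h, map_zero])
  constructor
  · intro v w hvw
    funext l
    have h1 : (X i : PolyS n) • v l = (X i : PolyS n) • w l := congrFun hvw l
    rw [Algebra.smul_def, Algebra.smul_def] at h1
    exact mul_left_cancel₀ h0 h1
  · intro v
    refine ⟨fun l => (algebraMap (PolyS n) (RatS n) (X i))⁻¹ * v l, ?_⟩
    funext l
    change (X i : PolyS n) • ((algebraMap (PolyS n) (RatS n) (X i))⁻¹ * v l) = v l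
    rw [Algebra.smul_def, ← mul_assoc, mul_inv_cancel₀ h0, one_mul]

theorem isSection_iff {n : ℕ} (A : Arrangement n) {q : ℕ} (σ : Fin q → Fin (n + 1))
    (v : Fin (n + 1) → RatS n) : A.IsSection σ v ↔ v ∈ locSub (M := A.D₀sub) (jD A) σ := by
  constructor
  · rintro ⟨N, θ, hθ, h⟩
    refine ⟨N, ⟨θ, hθ⟩, ?_⟩
    funext i
    rw [Pi.smul_apply, Algebra.smul_def]
    exact h i
  · rintro ⟨N, θ, h⟩
    refine ⟨N, θ.1, θ.2, ?_⟩
    intro i
    have := congrFun h i
    rw [Pi.smul_apply, Algebra.smul_def] at this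
    exact this

theorem cechDiff_eq {n q : ℕ} (c : (Fin (q + 1) → Fin (n + 1)) → Fin (n + 1) → RatS n)
    (σ : Fin (q + 2) → Fin (n + 1)) : cechDiff c σ = dV c σ := by
  funext i
  unfold cechDiff dV
  rw [Finset.sum_apply]
  refine Finset.sum_congr rfl fun k _ => ?_
  rw [Pi.smul_apply, Algebra.smul_def, map_pow, map_neg, map_one]

/-- The vanishing in the official definition agrees with the vanishing of the cohomology of the
Cech complex of localized modules. -/
theorem cohomologyVanishes_iff {n : ℕ} (A : Arrangement n) (p : ℕ) :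
    A.CohomologyVanishes (p + 1) ↔ Subsingleton (HStar (n := n) A.D₀sub (p + 1)) := by
  rw [transfer (varUnits_rat (n := n)) (jD A) (jD_injective A) p]
  unfold Arrangement.CohomologyVanishes
  simp only [isSection_iff]
  constructor
  · intro h c hc hd
    obtain ⟨b, hb1, hb2⟩ := h c hc (by
      intro σ i
      rw [cechDiff_eq, hd]
      rfl)
    refine ⟨b, hb1, ?_⟩
    funext σ i
    rw [← cechDiff_eq, hb2]
  · intro h c hc hd
    obtain ⟨b, hb1, hb2⟩ := h c hc (by
      funext σ i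
      rw [← cechDiff_eq, hd]
      rfl)
    refine ⟨b, hb1, ?_⟩
    intro σ i
    rw [cechDiff_eq, hb2]

theorem stablyFree_iff (b c : ℤ) (h : GoodCoef b c) (hb1 : b ≠ 1) (hb2 : b ≠ -1) (hc1 : c ≠ 1)
    (hc2 : c ≠ -1) : (arr b c h).StablyFree ↔ CokerCond (matP (b : ℂ) (c : ℂ)) := by
  rw [← subsingleton_iff_cokerCond (n := 4) _ (by norm_num),
    ← subsingleton_congr (M := (arr b c h).D₀sub) _ (equivD₀ b c h hb1 hb2 hc1 hc2) 1,
    ← cohomologyVanishes_iff]
  constructor
  · intro hs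
    exact hs 2 (le_refl _) (le_refl _)
  · intro hs i h2 h4
    have : i = 2 := by omega
    subst this
    exact hs

end Pool.Agent.H43.StableFree
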