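import Pool.Agent.H43.StableFree.Lattice
import Pool.Agent.H43.StableFree.Equiv

/-!
The bases of the two arrangements agree: a finite computation with integer determinants.
-/

namespace Pool.Agent.H43.StableFree

open Submodule

/-- Determinant by expansion along the last column, skipping zero entries. -/
def pdet : (n : ℕ) → (Fin n → Fin n → ℤ) → ℤ
  | 0, _ => 1
  | n + 1, M => (List.ofFn fun i : Fin (n + 1) =>
      if M i (Fin.last n) = 0 then 0 else
        (-1) ^ ((i : ℕ) + n) * M i (Fin.last n) *
          pdet n fun k l => M (i.succAbove k) l.castSucc).sum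

theorem pdet_eq (n : ℕ) (M : Fin n → Fin n → ℤ) : pdet n M = Matrix.det (Matrix.of M) := by
  induction n with
  | zero => simp [pdet]
  | succ n ih =>
    rw [pdet, List.sum_ofFn, Matrix.det_succ_column _ (Fin.last n)]
    refine Finset.sum_congr rfl fun i _ => ?_
    rw [ih]
    have h : (Matrix.of fun k l => M (i.succAbove k) l.castSucc) =
        (Matrix.of M).submatrix i.succAbove (Fin.last n).succAbove := by
      ext k l
      simp
    rw [h]
    by_cases h0 : M i (Fin.last n) = 0
    · simp [h0]
    · simp [h0]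

/-- The matrix of five selected rows. -/
def rows (b c : ℤ) (g : Fin 5 → Fin 13) : Fin 5 → Fin 5 → ℤ := fun i j => coef b c (g i) j

/-- The finite check. -/
def check : Prop :=
  ∀ x0 : Fin 13, ∀ x1 : Fin 13, x0 < x1 → ∀ x2 : Fin 13, x1 < x2 → ∀ x3 : Fin 13, x2 < x3 →
    ∀ x4 : Fin 13, x3 < x4 → (pdet 5 (rows 2 2 ![x0, x1, x2, x3, x4]) = 0 ↔
      pdet 5 (rows 0 4 ![x0, x1, x2, x3, x4]) = 0)

instance : Decidable check := by unfold check; infer_instance

set_option maxRecDepth 100000 in
theorem check_true : check := by decide +kernel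

/-- The complex coefficient vectors. -/
def cvec (b c : ℤ) (j : Fin 13) : Fin 5 → ℂ := fun i => (coef b c j i : ℂ)

theorem indep_iff (b c : ℤ) (g : Fin 5 → Fin 13) :
    LinearIndependent ℂ (cvec b c ∘ g) ↔ pdet 5 (rows b c g) ≠ 0 := by
  rw [pdet_eq]
  have h1 : LinearIndependent ℂ (cvec b c ∘ g) ↔
      IsUnit ((Matrix.of (rows b c g)).map (Int.castRingHom ℂ)) := by
    rw [← Matrix.linearIndependent_rows_iff_isUnit]
    rfl
  rw [h1, Matrix.isUnit_iff_isUnit_det, isUnit_iff_ne_zero]
  have h2 : ((Matrix.of (rows b c g)).map (Int.castRingHom ℂ)).det =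
      (((Matrix.of (rows b c g)).det : ℤ) : ℂ) := by
    have := (RingHom.map_det (Int.castRingHom ℂ) (Matrix.of (rows b c g))).symm
    simpa using this
  rw [h2]
  exact Int.cast_ne_zero

theorem span_top (b c : ℤ) (h : pdet 5 (rows b c ![0, 1, 4, 10, 12]) ≠ 0) :
    span ℂ (Set.range (cvec b c)) = ⊤ := by
  have h1 := (indep_iff b c ![0, 1, 4, 10, 12]).mpr h
  have h2 := h1.span_eq_top_of_card_eq_finrank (by simp)
  rw [eq_top_iff, ← h2]
  exact span_mono (Set.range_comp_subset_range _ _)

theorem bases_agree (B : Finset (Fin 13)) (hB : B.card = 5) :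
    LinearIndepOn ℂ (cvec 2 2) (B : Set (Fin 13)) ↔
      LinearIndepOn ℂ (cvec 0 4) (B : Set (Fin 13)) := by
  let g := B.orderEmbOfFin hB
  have hg : (B : Set (Fin 13)) = Set.range g := (Finset.range_orderEmbOfFin B hB).symm
  rw [hg, linearIndepOn_range_iff g.injective, linearIndepOn_range_iff g.injective,
    indep_iff, indep_iff]
  have hlt : ∀ i j : Fin 5, i < j → g i < g j := fun i j hij => g.strictMono hij
  have h := check_true (g 0) (g 1) (hlt _ _ (by decide)) (g 2) (hlt _ _ (by decide)) (g 3)
    (hlt _ _ (by decide)) (g 4) (hlt _ _ (by decide))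
  have hgg : ![g 0, g 1, g 2, g 3, g 4] = (g : Fin 5 → Fin 13) := by
    funext i
    fin_cases i <;> rfl
  rw [hgg] at h
  exact not_congr h

theorem good_22 : GoodCoef 2 2 := by
  unfold GoodCoef
  decide +kernel

theorem good_04 : GoodCoef 0 4 := by
  unfold GoodCoef
  decide +kernel

theorem sameLattice : (arr 2 2 good_22).SameLattice (arr 0 4 good_04) :=
  sameLattice_of_bases (n := 4) (cvec 2 2) (cvec 0 4)
    (span_top 2 2 (by decide +kernel)) (span_top 0 4 (by decide +kernel)) bases_agree

end Pool.Agent.H43.StableFree
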