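import Pool.Agent.H43.StableFree.Chase

/-!
Criteria for the vanishing and the non-vanishing of `H^1` of the cokernel of a matrix which does
not involve one of the variables.
-/

open MvPolynomial

namespace Pool.Agent.H43.StableFree

variable {n : ℕ}

/-- Setting one variable to zero. -/
noncomputable def kill (u : Fin (n + 1)) : PolyS n →ₐ[ℂ] PolyS n :=
  aeval fun i => if i = u then 0 else X i

theorem kill_self (u : Fin (n + 1)) : kill u (X u) = 0 := by
  simp [kill]

theorem kill_ne (u i : Fin (n + 1)) (h : i ≠ u) : kill u (X i) = X i := by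
  simp [kill, h]

theorem sub_kill (u : Fin (n + 1)) (p : PolyS n) : ∃ q, p = kill u p + X u * q := by
  have h : (Ideal.Quotient.mkₐ ℂ (Ideal.span {(X u : PolyS n)})).comp (kill u) =
      Ideal.Quotient.mkₐ ℂ (Ideal.span {(X u : PolyS n)}) := by
    apply MvPolynomial.algHom_ext
    intro i
    by_cases hi : i = u
    · subst hi
      rw [AlgHom.comp_apply, kill_self, map_zero]
      symm
      exact Ideal.Quotient.eq_zero_iff_mem.mpr (Ideal.mem_span_singleton_self _)
    · rw [AlgHom.comp_apply, kill_ne _ _ hi]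
  have h1 := AlgHom.congr_fun h p
  have h2 : p - kill u p ∈ Ideal.span {(X u : PolyS n)} := by
    rw [← Ideal.Quotient.eq]
    exact h1.symm
  obtain ⟨q, hq⟩ := Ideal.mem_span_singleton'.mp h2
  exact ⟨q, by rw [mul_comm, hq]; ring⟩

section Mat

variable {k m : ℕ} (P : Matrix (Fin k) (Fin m) (PolyS n)) (u : Fin (n + 1))

/-- The image of the matrix. -/
noncomputable def Im : Submodule (PolyS n) (Fin k → PolyS n) := LinearMap.range P.mulVecLin

theorem mem_Im {s : Fin k → PolyS n} : s ∈ Im P ↔ ∃ t, P.mulVec t = s := Iff.rfl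

theorem kill_mulVec (hP : ∀ i j, kill u (P i j) = P i j) (t : Fin m → PolyS n) :
    (fun r => kill u (P.mulVec t r)) = P.mulVec fun i => kill u (t i) := by
  funext r
  simp [Matrix.mulVec, dotProduct, hP]

theorem kill_mem (hP : ∀ i j, kill u (P i j) = P i j) {s : Fin k → PolyS n} (hs : s ∈ Im P) :
    (fun r => kill u (s r)) ∈ Im P := by
  obtain ⟨t, rfl⟩ := hs
  exact ⟨_, (kill_mulVec P u hP t).symm⟩

theorem regular (hP : ∀ i j, kill u (P i j) = P i j) {s : Fin k → PolyS n}
    (hs : (X u : PolyS n) • s ∈ Im P) : s ∈ Im P := by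
  obtain ⟨t, ht⟩ := hs
  replace ht : P.mulVec t = (X u : PolyS n) • s := ht
  choose q hq using fun i => sub_kill u (t i)
  have h1 : P.mulVec (fun i => kill u (t i)) = 0 := by
    rw [← kill_mulVec P u hP, ht]
    funext r
    simp [kill_self]
  have h2 : t = (fun i => kill u (t i)) + (X u : PolyS n) • q := by
    funext i
    simpa using hq i
  rw [h2, Matrix.mulVec_add, h1, zero_add, Matrix.mulVec_smul] at ht
  refine ⟨q, ?_⟩
  change P.mulVec q = s
  funext r
  have := congrFun ht r
  simp only [Pi.smul_apply, smul_eq_mul] at this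
  exact mul_left_cancel₀ (MvPolynomial.X_ne_zero u) this

theorem regular_pow (hP : ∀ i j, kill u (P i j) = P i j) {s : Fin k → PolyS n} (N : ℕ)
    (hs : (X u : PolyS n) ^ N • s ∈ Im P) : s ∈ Im P := by
  induction N with
  | zero => simpa using hs
  | succ N ih =>
    apply ih
    apply regular P u hP
    rwa [smul_smul, ← pow_succ']

/-- Torsion-freeness modulo `u` implies torsion-freeness modulo `u^N`. -/
theorem torsion_pow (hP : ∀ i j, kill u (P i j) = P i j)
    (hT : ∀ s : Fin k → PolyS n, (∀ i, i ≠ u → ∃ M : ℕ, (X i : PolyS n) ^ M • s ∈ Im P) →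
      s ∈ Im P) (N : ℕ) (s : Fin k → PolyS n)
    (hs : ∀ i, i ≠ u → ∃ M : ℕ, ∃ e ∈ Im P, ∃ t : Fin k → PolyS n,
      (X i : PolyS n) ^ M • s = e + (X u : PolyS n) ^ N • t) :
    ∃ e ∈ Im P, ∃ t : Fin k → PolyS n, s = e + (X u : PolyS n) ^ N • t := by
  induction N generalizing s with
  | zero => exact ⟨0, (Im P).zero_mem, s, by simp⟩
  | succ N ih =>
    have h1 : (fun r => kill u (s r)) ∈ Im P := by
      apply hT
      intro i hi
      obtain ⟨M, e, he, t, h⟩ := hs i hi
      refine ⟨M, ?_⟩
      have h2 := kill_mem P u hP he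
      convert h2 using 1
      funext r
      have h3 := congrFun h r
      simp only [Pi.smul_apply, Pi.add_apply, smul_eq_mul] at h3
      have h4 := congrArg (kill u) h3
      simp only [map_mul, map_pow, map_add, kill_ne u i hi, kill_self] at h4
      simp only [Pi.smul_apply, smul_eq_mul]
      rw [h4]
      simp
    choose q hq using fun r => sub_kill u (s r)
    have hsq : s = (fun r => kill u (s r)) + (X u : PolyS n) • q := by
      funext r
      simpa using hq r
    obtain ⟨e', he', t', ht'⟩ := ih q (by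
      intro i hi
      obtain ⟨M, e, he, t, h⟩ := hs i hi
      refine ⟨M, (X i : PolyS n) ^ M • q - (X u : PolyS n) ^ N • t, ?_, t, by abel⟩
      apply regular P u hP
      rw [smul_sub, smul_smul _ _ t, ← pow_succ', smul_comm]
      have h5 : (X i : PolyS n) ^ M • (X u : PolyS n) • q - (X u : PolyS n) ^ (N + 1) • t =
          e - (X i : PolyS n) ^ M • (fun r => kill u (s r)) := by
        rw [hsq, smul_add] at h
        have h6 := eq_sub_of_add_eq' h
        rw [h6]
        abel
      rw [h5]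
      exact (Im P).sub_mem he ((Im P).smul_mem _ h1))
    refine ⟨(fun r => kill u (s r)) + (X u : PolyS n) • e', (Im P).add_mem h1
      ((Im P).smul_mem _ he'), t', ?_⟩
    rw [pow_succ', mul_smul, add_assoc, ← smul_add, ← ht']
    exact hsq

/-- Clearing denominators. -/
theorem InE_iff {p : ℕ} (σ : Fin p → Fin (n + 1)) (v : Fin k → LaurentS n) :
    InE P σ v ↔ ∃ N : ℕ, ∃ e ∈ Im P, xprod σ ^ N • v = fun r => incl n (e r) := by
  constructor
  · rintro ⟨t, ht, rfl⟩
    choose N w hw using fun i => (mem_locSub_iff σ (t i)).mpr (ht i)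
    let N₀ := ∑ i, N i
    have hN : ∀ i, N i ≤ N₀ := fun i =>
      Finset.single_le_sum (f := N) (fun _ _ => Nat.zero_le _) (Finset.mem_univ i)
    let w' : Fin m → PolyS n := fun i => xprod σ ^ (N₀ - N i) * w i
    have hw' : xprod σ ^ N₀ • t = fun i => incl n (w' i) := by
      funext i
      have := hw i
      simp only [Algebra.linearMap_apply, algebraMap_eq_incl] at this
      simp only [Pi.smul_apply, w', map_mul]
      rw [← this, smul_eq, smul_eq, ← mul_assoc, ← map_mul, ← pow_add, Nat.sub_add_cancel (hN i)]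
    refine ⟨N₀, P.mulVec w', ⟨w', rfl⟩, ?_⟩
    rw [← map_smul, hw', phiL_incl]
  · rintro ⟨N, e, ⟨t, ht⟩, h⟩
    obtain ⟨t', ht'⟩ := (varUnits_pi (n := n) m).surjective σ N (fun i => incl n (t i))
    refine ⟨t', fun i => ?_, ?_⟩
    · rw [← mem_locSub_iff]
      exact ⟨N, t i, congrFun ht' i⟩
    · apply (varUnits_pi (n := n) k).injective σ N
      rw [← map_smul, ht', h, phiL_incl]
      rw [← ht]
      rfl

theorem dV_pair {V : Type*} [AddCommGroup V] [Module (PolyS n) V]
    (a : (Fin 1 → Fin (n + 1)) → V) (σ : Fin 2 → Fin (n + 1)) :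
    dV a σ = a ![σ 1] - a ![σ 0] := by
  unfold dV
  rw [Fin.sum_univ_two]
  have h0 : σ ∘ (0 : Fin 2).succAbove = ![σ 1] := by
    funext k; fin_cases k; simp
  have h1 : σ ∘ (1 : Fin 2).succAbove = ![σ 0] := by
    funext k; fin_cases k; simp
  rw [h0, h1]
  simp [sub_eq_add_neg]

theorem xprod_one (i : Fin (n + 1)) : xprod ![i] = X i := by
  simp [xprod]

theorem xprod_two (i j : Fin (n + 1)) : xprod ![i, j] = X i * X j := by
  simp [xprod, Fin.prod_univ_two]

theorem incl_vec_injective {s t : Fin k → PolyS n}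
    (h : (fun r => incl n (s r)) = fun r => incl n (t r)) : s = t := by
  funext r
  exact incl_injective (congrFun h r)

theorem smul_incl_vec (p : PolyS n) (s : Fin k → PolyS n) :
    p • (fun r => incl n (s r)) = fun r => incl n ((p • s) r) := by
  funext r
  simp [smul_eq]

theorem incl_vec_sub (s t : Fin k → PolyS n) :
    ((fun r => incl n (s r)) - fun r => incl n (t r)) = fun r => incl n ((s - t) r) := by
  funext r
  simp

/-- Vanishing criterion. -/
theorem cokerCond_of (hP : ∀ i j, kill u (P i j) = P i j)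
    (hT : ∀ s : Fin k → PolyS n, (∀ i, i ≠ u → ∃ M : ℕ, (X i : PolyS n) ^ M • s ∈ Im P) →
      s ∈ Im P) : CokerCond P := by
  intro a ha hE
  -- numerators
  have hnum : ∀ i : Fin (n + 1), ∃ N : ℕ, ∃ s : Fin k → PolyS n,
      (X i : PolyS n) ^ N • a ![i] = fun r => incl n (s r) := by
    intro i
    choose N w hw using fun r => (mem_locSub_iff ![i] (a ![i] r)).mpr (ha ![i] r)
    let N₀ := ∑ r, N r
    have hN : ∀ r, N r ≤ N₀ := fun r =>
      Finset.single_le_sum (f := N) (fun _ _ => Nat.zero_le _) (Finset.mem_univ r)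
    refine ⟨N₀, fun r => X i ^ (N₀ - N r) * w r, ?_⟩
    funext r
    have := hw r
    simp only [Algebra.linearMap_apply, algebraMap_eq_incl, xprod_one] at this
    simp only [Pi.smul_apply, map_mul]
    rw [← this, smul_eq, smul_eq, ← mul_assoc, ← map_mul, ← pow_add, Nat.sub_add_cancel (hN r)]
  choose N s hs using hnum
  have hdiff : ∀ i : Fin (n + 1), ∃ M : ℕ, ∃ e ∈ Im P,
      ((X i : PolyS n) * X u) ^ M • (a ![u] - a ![i]) = fun r => incl n (e r) := by
    intro i
    have := (InE_iff P ![i, u] _).mp (hE ![i, u])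
    rw [dV_pair, xprod_two] at this
    simpa using this
  choose M e he hMe using hdiff
  -- the key relation
  have hrel : ∀ i, (X i : PolyS n) ^ (M i) • ((X i : PolyS n) ^ (N i) • s u -
      (X u : PolyS n) ^ (N u) • s i) ∈ Im P := by
    intro i
    apply regular_pow P u hP (M i)
    have h1 : (X u : PolyS n) ^ (M i) • (X i : PolyS n) ^ (M i) • ((X i : PolyS n) ^ (N i) • s u -
      (X u : PolyS n) ^ (N u) • s i) = ((X i : PolyS n) ^ (N i) * X u ^ (N u)) • e i := by
      apply incl_vec_injective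
      rw [← smul_incl_vec, ← smul_incl_vec, ← smul_incl_vec, ← hMe i, ← incl_vec_sub,
        ← smul_incl_vec, ← smul_incl_vec, ← hs, ← hs]
      simp only [smul_sub, smul_smul]
      congr 2 <;> ring
    rw [h1]
    exact (Im P).smul_mem _ (he i)
  obtain ⟨e₀, he₀, t₀, ht₀⟩ := torsion_pow P u hP hT (N u) (s u) (by
    intro i _
    refine ⟨M i + N i, _, hrel i, (X i : PolyS n) ^ (M i) • s i, ?_⟩
    simp only [smul_sub, smul_smul]
    rw [← pow_add, mul_comm (X u ^ (N u)) (X i ^ (M i))]
    abel)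
  refine ⟨t₀, ?_⟩
  intro τ
  obtain ⟨i, rfl⟩ : ∃ i, τ = ![i] := ⟨τ 0, by funext k; fin_cases k; simp⟩
  rw [InE_iff, xprod_one]
  by_cases hi : i = u
  · subst hi
    refine ⟨N i, e₀, he₀, ?_⟩
    rw [smul_sub, hs, smul_incl_vec, incl_vec_sub]
    funext r
    congr 1
    rw [ht₀]
    simp
  · refine ⟨M i + N i, (X i : PolyS n) ^ (M i) • (s i - (X i : PolyS n) ^ (N i) • t₀), ?_, ?_⟩
    · apply regular_pow P u hP (N u)
      have h1 : (X u : PolyS n) ^ (N u) • (X i : PolyS n) ^ (M i) •
          (s i - (X i : PolyS n) ^ (N i) • t₀) =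
          ((X i : PolyS n) ^ (M i + N i)) • e₀ -
          (X i : PolyS n) ^ (M i) • ((X i : PolyS n) ^ (N i) • s u -
          (X u : PolyS n) ^ (N u) • s i) := by
        rw [ht₀]
        simp only [smul_sub, smul_add, smul_smul, pow_add]
        rw [mul_comm (X u ^ (N u)) (X i ^ (M i)),
          show X u ^ N u * (X i ^ M i * X i ^ N i) = X i ^ M i * (X i ^ N i * X u ^ N u) by ring]
        abel
      rw [h1]
      exact (Im P).sub_mem ((Im P).smul_mem _ he₀) (hrel i)
    · rw [← smul_incl_vec, ← incl_vec_sub, ← smul_incl_vec, ← hs]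
      simp only [smul_sub, smul_smul, pow_add]

/-- Non-vanishing criterion. -/
theorem not_cokerCond_of (hP : ∀ i j, kill u (P i j) = P i j) (s₀ : Fin k → PolyS n)
    (h₀ : ∀ i, i ≠ u → (X i : PolyS n) • s₀ ∈ Im P)
    (h₁ : (fun r => kill u (s₀ r)) ∉ Im P) : ¬ CokerCond P := by
  intro hC
  obtain ⟨v, hv⟩ := (varUnits_pi (n := n) k).surjective ![u] 1 (fun r => incl n (s₀ r))
  rw [pow_one, xprod_one] at hv
  let a : (Fin 1 → Fin (n + 1)) → (Fin k → LaurentS n) := fun τ => if τ 0 = u then v else 0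
  have hau : a ![u] = v := by simp [a]
  have hai : ∀ i, i ≠ u → a ![i] = 0 := by
    intro i hi
    simp [a, hi]
  obtain ⟨s, hs⟩ := hC a (by
    intro τ r
    obtain ⟨i, rfl⟩ : ∃ i, τ = ![i] := ⟨τ 0, by funext k; fin_cases k; simp⟩
    by_cases hi : i = u
    · subst hi
      rw [hau, ← mem_locSub_iff]
      refine ⟨1, s₀ r, ?_⟩
      rw [pow_one, xprod_one]
      exact congrFun hv r
    · rw [hai i hi]
      exact InL.zero _) (by
    intro σ
    obtain ⟨i, j, rfl⟩ : ∃ i j, σ = ![i, j] :=
      ⟨σ 0, σ 1, by funext k; fin_cases k <;> simp⟩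
    rw [dV_pair]
    simp only [Matrix.cons_val_zero, Matrix.cons_val_one, Matrix.cons_val_fin_one]
    rw [InE_iff, xprod_two]
    by_cases hi : i = u <;> by_cases hj : j = u
    · subst hi; subst hj
      exact ⟨0, 0, (Im P).zero_mem, by funext r; simp⟩
    · subst hi
      rw [hau, hai j hj]
      refine ⟨1, -((X j : PolyS n) • s₀), (Im P).neg_mem (h₀ j hj), ?_⟩
      rw [pow_one, zero_sub, smul_neg, mul_comm, mul_smul, hv, smul_incl_vec]
      funext r
      simp
    · subst hj
      rw [hau, hai i hi]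
      refine ⟨1, (X i : PolyS n) • s₀, h₀ i hi, ?_⟩
      rw [pow_one, sub_zero, mul_smul, hv, smul_incl_vec]
    · rw [hai i hi, hai j hj]
      exact ⟨0, 0, (Im P).zero_mem, by funext r; simp⟩)
  have h := hs ![u]
  rw [hau, InE_iff, xprod_one] at h
  obtain ⟨N, e, he, hN⟩ := h
  have h2 : (X u : PolyS n) ^ N • (s₀ - (X u : PolyS n) • s) = (X u : PolyS n) • e := by
    apply incl_vec_injective
    rw [← smul_incl_vec, ← smul_incl_vec, ← hN, ← incl_vec_sub, ← smul_incl_vec, ← hv]
    simp only [smul_sub, smul_smul]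
    congr 2 <;> ring
  have h3 : s₀ - (X u : PolyS n) • s ∈ Im P := by
    apply regular_pow P u hP N
    rw [h2]
    exact (Im P).smul_mem _ he
  apply h₁
  have h4 := kill_mem P u hP h3
  convert h4 using 1
  funext r
  simp [kill_self]

end Mat

end Pool.Agent.H43.StableFree
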