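import Pool.Agent.H43.StableFree.Basic

/-!
The Cech complex of a module over the polynomial ring, with localized modules, and linear algebra
versions of the notions of `Basic.lean`.
-/

open MvPolynomial

namespace Pool.Agent.H43.StableFree

/-- The linear form `a_0 x_0 + … + a_n x_n`. -/
noncomputable def linForm {n : ℕ} (a : Fin (n + 1) → ℂ) : PolyS n := ∑ i, C (a i) * X i

/-- The linear functional `v ↦ a_0 v_0 + … + a_n v_n` on `ℂ^{n+1}`. -/
def functional {n : ℕ} (a : Fin (n + 1) → ℂ) : (Fin (n + 1) → ℂ) →ₗ[ℂ] ℂ where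
  toFun v := ∑ i, a i * v i
  map_add' v w := by simp [mul_add, Finset.sum_add_distrib]
  map_smul' c v := by simp [Finset.mul_sum, mul_left_comm]

/-- The linear hyperplane `{v ∈ ℂ^{n+1} : a_0 v_0 + … + a_n v_n = 0}`. -/
def hyperplane {n : ℕ} (a : Fin (n + 1) → ℂ) : Submodule ℂ (Fin (n + 1) → ℂ) :=
  LinearMap.ker (functional a)

theorem coe_hyperplane {n : ℕ} (a : Fin (n + 1) → ℂ) : (hyperplane a : Set (Fin (n + 1) → ℂ)) =
    hyper a := rfl

namespace Arrangement

variable {n : ℕ} (A : Arrangement n)

/-- The module `D_0(A)` as a submodule. -/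
noncomputable def D₀sub : Submodule (PolyS n) (Derivation ℂ (PolyS n) (PolyS n)) where
  carrier := A.D₀
  add_mem' := fun {θ η} hθ hη => ⟨fun j => by
    simpa using dvd_add (hθ.1 j) (hη.1 j), by simp [hθ.2, hη.2]⟩
  zero_mem' := ⟨fun j => by simp, by simp⟩
  smul_mem' := fun c θ hθ => ⟨fun j => by
    simpa using Dvd.dvd.mul_left (hθ.1 j) c, by simp [hθ.2]⟩

end Arrangement

/-! ### The Cech complex of a graded module on the standard affine cover of `ℙ^n` -/

section Cech

variable {n : ℕ}

variable (M : Type*) [AddCommGroup M] [Module (PolyS n) M]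

/-- The localized module `M_f`. -/
abbrev Loc (f : PolyS n) : Type _ := LocalizedModule (Submonoid.powers f) M

/-- If `f` divides `g` then all powers of `f` act invertibly on `M_g`. -/
theorem isUnit_of_dvd {f g : PolyS n} (h : f ∣ g) (s : Submonoid.powers f) :
    IsUnit (algebraMap (PolyS n) (Module.End (PolyS n) (Loc M g)) s) := by
  obtain ⟨s, k, rfl⟩ := s
  obtain ⟨e, rfl⟩ := h
  have hu : IsUnit (algebraMap (PolyS n) (Module.End (PolyS n) (Loc M (f * e))) (f * e)) :=
    IsLocalizedModule.map_units (LocalizedModule.mkLinearMap (Submonoid.powers (f * e)) M)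
      ⟨f * e, Submonoid.mem_powers _⟩
  have hu' : IsUnit (algebraMap (PolyS n) (Module.End (PolyS n) (Loc M (f * e))) f) := by
    rw [map_mul] at hu
    exact ((Commute.isUnit_mul_iff
      (by rw [commute_iff_eq, ← map_mul, ← map_mul, mul_comm])).mp hu).1
  simpa using hu'.pow k

/-- The restriction map `M_f → M_g` when `f` divides `g`. -/
noncomputable def restr {f g : PolyS n} (h : f ∣ g) : Loc M f →ₗ[PolyS n] Loc M g :=
  LocalizedModule.lift (Submonoid.powers f)
    (LocalizedModule.mkLinearMap (Submonoid.powers g) M) (isUnit_of_dvd M h)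

/-- Leaving out one index gives a divisor. -/
theorem xprod_dvd {p : ℕ} (σ : Fin (p + 1) → Fin (n + 1)) (k : Fin (p + 1)) :
    xprod (σ ∘ k.succAbove) ∣ xprod σ := by
  unfold xprod
  rw [Fin.prod_univ_succAbove _ k]
  exact Dvd.intro_left _ rfl

/-- The Cech `p`-cochains: families of elements `c_σ ∈ M_{x_{σ_0} ⋯ x_{σ_p}}` indexed by all
tuples `σ = (σ_0, …, σ_p)`. For a graded module `M` this is the direct sum over all twists `t` of
the Cech `p`-cochains, with values in the twist by `t` of the sheaf associated with `M`, of the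
standard cover of `ℙ^n` by the open sets `x_i ≠ 0`. -/
abbrev Cochain (p : ℕ) : Type _ := (σ : Fin (p + 1) → Fin (n + 1)) → Loc M (xprod σ)

/-- The Cech differential `(d c)_σ = ∑ k, (-1)^k c_{σ with σ_k left out}`. -/
noncomputable def cechD (p : ℕ) :
    Cochain (n := n) M p →ₗ[PolyS n] Cochain (n := n) M (p + 1) where
  toFun c σ := ∑ k : Fin (p + 2),
    (-1 : PolyS n) ^ (k : ℕ) • restr M (xprod_dvd σ k) (c (σ ∘ k.succAbove))
  map_add' c c' := by
    funext σ
    simp [Finset.sum_add_distrib, smul_add]
  map_smul' r c := by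
    funext σ
    simp only [Pi.smul_apply, map_smul, RingHom.id_apply, Finset.smul_sum]
    refine Finset.sum_congr rfl fun k _ => ?_
    rw [smul_comm]

/-- The Cech cohomology modules; for a graded module `M` with associated sheaf `F`, the module
`HStar M i` is `⨁ t, H^i(ℙ^n, F(t))`. -/
def HStar : ℕ → Type _
  | 0 => LinearMap.ker (cechD (n := n) M 0)
  | i + 1 => LinearMap.ker (cechD (n := n) M (i + 1)) ⧸
      (LinearMap.range (cechD (n := n) M i)).submoduleOf (LinearMap.ker (cechD (n := n) M (i + 1)))

end Cech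

end Pool.Agent.H43.StableFree
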