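import Pool.Agent.H43.StableFree.Defs

/-!
Isomorphism of intersection lattices from equality of bases.
-/

namespace Pool.Agent.H43.StableFree

open Submodule

section General

variable {n d : ℕ}

theorem functional_add (a b : Fin (n + 1) → ℂ) :
    functional (a + b) = functional a + functional b := by
  refine LinearMap.ext fun v => ?_
  simp [functional, add_mul, Finset.sum_add_distrib]

theorem functional_apply_single (a : Fin (n + 1) → ℂ) (i : Fin (n + 1)) :
    functional a (Pi.single i 1) = a i := by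
  simp [functional, Pi.single_apply]

/-- `functional` as a linear map. -/
def functionalL (n : ℕ) : (Fin (n + 1) → ℂ) →ₗ[ℂ] ((Fin (n + 1) → ℂ) →ₗ[ℂ] ℂ) where
  toFun := functional
  map_add' := functional_add
  map_smul' c a := by
    refine LinearMap.ext fun v => ?_
    simp [functional, Finset.mul_sum, mul_assoc]

theorem functionalL_injective : Function.Injective (functionalL n) := by
  intro a b h
  funext i
  have := LinearMap.congr_fun h (Pi.single i 1)
  change functional a _ = functional b _ at this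
  rwa [functional_apply_single, functional_apply_single] at this

theorem iInf_le_iff (a : Fin d → Fin (n + 1) → ℂ) (J : Finset (Fin d)) (j : Fin d) :
    (⨅ i ∈ J, hyperplane (a i)) ≤ hyperplane (a j) ↔ a j ∈ span ℂ (a '' J) := by
  constructor
  · intro h
    have h1 : (⨅ i : J, LinearMap.ker (functional (a i))) ≤ LinearMap.ker (functional (a j)) := by
      rw [iInf_subtype]
      exact h
    have h2 := mem_span_of_iInf_ker_le_ker h1
    have h3 : Set.range (fun i : J => functional (a i)) = functionalL n '' (a '' J) := by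
      ext f
      constructor
      · rintro ⟨i, rfl⟩
        exact ⟨a i, ⟨i, i.2, rfl⟩, rfl⟩
      · rintro ⟨_, ⟨i, hi, rfl⟩, rfl⟩
        exact ⟨⟨i, hi⟩, rfl⟩
    rw [h3, ← LinearMap.map_span] at h2
    obtain ⟨v, hv, hv2⟩ := h2
    have : v = a j := functionalL_injective hv2
    rw [← this]
    exact hv
  · intro h v hv
    simp only [Submodule.mem_iInf] at hv
    change functional (a j) v = 0
    have hle : span ℂ (a '' J) ≤
        LinearMap.ker ((LinearMap.applyₗ v : ((Fin (n + 1) → ℂ) →ₗ[ℂ] ℂ) →ₗ[ℂ] ℂ) ∘ₗ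
          functionalL n) := by
      rw [span_le]
      rintro _ ⟨i, hi, rfl⟩
      exact hv i hi
    exact hle h

theorem biInter_subset_iff (a : Fin d → Fin (n + 1) → ℂ) (J : Set (Fin d)) (j : Fin d) :
    (⋂ i ∈ J, hyper (a i)) ⊆ hyper (a j) ↔ a j ∈ span ℂ (a '' J) := by
  classical
  have h := iInf_le_iff a (Set.toFinite J).toFinset j
  rw [Set.Finite.coe_toFinset] at h
  rw [← h]
  constructor
  · intro hs v hv
    refine hs ?_
    simp only [Submodule.mem_iInf, Set.Finite.mem_toFinset] at hv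
    simp only [Set.mem_iInter]
    exact hv
  · intro hs v hv
    refine hs ?_
    simp only [Set.mem_iInter] at hv
    simp only [Submodule.mem_iInf, Set.Finite.mem_toFinset]
    exact hv

/-- The set of intersections. -/
def flatsOf (H : Fin d → Set (Fin (n + 1) → ℂ)) : Set (Set (Fin (n + 1) → ℂ)) :=
  {Y | ∃ J : Set (Fin d), Y = ⋂ j ∈ J, H j}

/-- The set of hyperplanes containing a subset. -/
def cl (H : Fin d → Set (Fin (n + 1) → ℂ)) (Y : Set (Fin (n + 1) → ℂ)) : Set (Fin d) :=
  {j | Y ⊆ H j}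

theorem eq_iInf_cl (H : Fin d → Set (Fin (n + 1) → ℂ)) {Y : Set (Fin (n + 1) → ℂ)}
    (hY : Y ∈ flatsOf H) : Y = ⋂ j ∈ cl H Y, H j := by
  obtain ⟨J, rfl⟩ := hY
  apply Set.Subset.antisymm
  · exact Set.subset_iInter₂ fun j hj => hj
  · refine Set.subset_iInter₂ fun j hj => Set.iInter₂_subset j ?_
    exact Set.iInter₂_subset j hj

variable (H H' : Fin d → Set (Fin (n + 1) → ℂ))
  (hcl : ∀ (J : Set (Fin d)) (j : Fin d),
    (⋂ i ∈ J, H i) ⊆ H j ↔ (⋂ i ∈ J, H' i) ⊆ H' j)

/-- Transport of a flat. -/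
def transp (Y : Set (Fin (n + 1) → ℂ)) : Set (Fin (n + 1) → ℂ) := ⋂ j ∈ cl H Y, H' j

include hcl in
theorem transp_le_iff {Y : Set (Fin (n + 1) → ℂ)} (hY : Y ∈ flatsOf H) (j : Fin d) :
    transp H H' Y ⊆ H' j ↔ Y ⊆ H j := by
  unfold transp
  rw [← hcl, ← eq_iInf_cl H hY]

include hcl in
theorem cl_transp {Y : Set (Fin (n + 1) → ℂ)} (hY : Y ∈ flatsOf H) :
    cl H' (transp H H' Y) = cl H Y := by
  ext j
  exact transp_le_iff H H' hcl hY j

/-- The lattices of flats are isomorphic when the closures agree. -/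
def flatsIso : flatsOf H ≃ flatsOf H' where
  toFun Y := ⟨transp H H' Y.1, cl H Y.1, rfl⟩
  invFun Y := ⟨transp H' H Y.1, cl H' Y.1, rfl⟩
  left_inv Y := by
    apply Subtype.ext
    change transp H' H (transp H H' Y.1) = Y.1
    have h1 : transp H' H (transp H H' Y.1) =
      ⋂ j ∈ cl H' (transp H H' Y.1), H j := rfl
    rw [h1, cl_transp H H' hcl Y.2, ← eq_iInf_cl H Y.2]
  right_inv Y := by
    apply Subtype.ext
    change transp H H' (transp H' H Y.1) = Y.1
    have h1 : transp H H' (transp H' H Y.1) =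
      ⋂ j ∈ cl H (transp H' H Y.1), H' j := rfl
    rw [h1, cl_transp H' H (fun J j => (hcl J j).symm) Y.2, ← eq_iInf_cl H' Y.2]

theorem flatsIso_rel (Y Z : flatsOf H) :
    (flatsIso H H' hcl Y).1 ⊆ (flatsIso H H' hcl Z).1 ↔ Y.1 ⊆ Z.1 := by
  change transp H H' Y.1 ⊆ transp H H' Z.1 ↔ Y.1 ⊆ Z.1
  constructor
  · intro h
    rw [eq_iInf_cl H Z.2]
    refine Set.subset_iInter₂ fun j hj => ?_
    rw [← transp_le_iff H H' hcl Y.2]
    refine h.trans ?_
    rw [transp_le_iff H H' hcl Z.2]
    exact hj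
  · intro h
    refine Set.subset_iInter₂ fun j hj => ?_
    rw [transp_le_iff H H' hcl Y.2]
    exact h.trans hj

end General

section Matroid

variable {n d : ℕ}

theorem indep_of_bases (a a' : Fin d → Fin (n + 1) → ℂ) (hspan : span ℂ (Set.range a) = ⊤)
    (hb : ∀ B : Finset (Fin d), B.card = n + 1 → LinearIndepOn ℂ a (B : Set (Fin d)) →
      LinearIndepOn ℂ a' (B : Set (Fin d)))
    (s : Set (Fin d)) (hs : LinearIndepOn ℂ a s) : LinearIndepOn ℂ a' s := by
  classical
  let B := hs.extend (Set.subset_univ s)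
  have hB : LinearIndepOn ℂ a B := hs.linearIndepOn_extend (Set.subset_univ s)
  have hBs : s ⊆ B := hs.subset_extend (Set.subset_univ s)
  have hBspan : span ℂ (a '' B) = ⊤ := by
    rw [hs.span_image_extend_eq_span_image (Set.subset_univ s), Set.image_univ, hspan]
  have hcard : B.toFinset.card = n + 1 := by
    have h1 : LinearIndependent ℂ (fun x : B => a x) := hB
    have h2 : ⊤ ≤ span ℂ (Set.range fun x : B => a x) := by
      rw [← hBspan]
      apply span_mono
      rintro _ ⟨x, hx, rfl⟩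
      exact ⟨⟨x, hx⟩, rfl⟩
    let bas := Module.Basis.mk h1 h2
    have h3 := Module.finrank_eq_card_basis bas
    rw [Module.finrank_fintype_fun_eq_card, Fintype.card_fin] at h3
    rw [Set.toFinset_card]
    exact h3.symm
  have h4 := hb B.toFinset hcard (by rwa [Set.coe_toFinset])
  rw [Set.coe_toFinset] at h4
  exact h4.mono hBs

theorem span_of_indep (a a' : Fin d → Fin (n + 1) → ℂ)
    (h : ∀ s : Set (Fin d), LinearIndepOn ℂ a s ↔ LinearIndepOn ℂ a' s)
    (J : Set (Fin d)) (j : Fin d) (hj : a j ∈ span ℂ (a '' J)) : a' j ∈ span ℂ (a' '' J) := by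
  classical
  by_contra hcon
  have h0 : LinearIndepOn ℂ a' (∅ : Set (Fin d)) := linearIndepOn_empty _ _
  let I := h0.extend (Set.empty_subset J)
  have hI : LinearIndepOn ℂ a' I := h0.linearIndepOn_extend (Set.empty_subset J)
  have hIJ : I ⊆ J := h0.extend_subset (Set.empty_subset J)
  have hIspan : span ℂ (a' '' I) = span ℂ (a' '' J) :=
    h0.span_image_extend_eq_span_image (Set.empty_subset J)
  have hjI : j ∉ I := by
    intro hjI
    exact hcon (subset_span ⟨j, hIJ hjI, rfl⟩)
  have h1 : LinearIndepOn ℂ a' (insert j I) := by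
    rw [linearIndepOn_insert hjI]
    exact ⟨hI, by rwa [hIspan]⟩
  have h2 := (h _).mpr h1
  rw [linearIndepOn_insert hjI] at h2
  apply h2.2
  have h3 : span ℂ (a '' J) ≤ span ℂ (a '' I) := by
    rw [span_le]
    rintro _ ⟨i, hi, rfl⟩
    by_cases hiI : i ∈ I
    · exact subset_span ⟨i, hiI, rfl⟩
    · by_contra hi2
      have h4 : LinearIndepOn ℂ a (insert i I) := by
        rw [linearIndepOn_insert hiI]
        exact ⟨h2.1, hi2⟩
      have h5 := (h _).mp h4
      rw [linearIndepOn_insert hiI] at h5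
      apply h5.2
      rw [hIspan]
      exact subset_span ⟨i, hi, rfl⟩
  exact h3 hj

theorem sameLattice_of_bases (a a' : Fin d → Fin (n + 1) → ℂ)
    (hspan : span ℂ (Set.range a) = ⊤) (hspan' : span ℂ (Set.range a') = ⊤)
    (hb : ∀ B : Finset (Fin d), B.card = n + 1 → (LinearIndepOn ℂ a (B : Set (Fin d)) ↔
      LinearIndepOn ℂ a' (B : Set (Fin d)))) :
    ∃ e : flatsOf (fun j => hyper (a j)) ≃ flatsOf (fun j => hyper (a' j)),
      ∀ Y Z : flatsOf (fun j => hyper (a j)), (Z : Set (Fin (n + 1) → ℂ)) ⊆ Y ↔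
        (e Z : Set (Fin (n + 1) → ℂ)) ⊆ e Y := by
  have h : ∀ s : Set (Fin d), LinearIndepOn ℂ a s ↔ LinearIndepOn ℂ a' s := fun s =>
    ⟨indep_of_bases a a' hspan (fun B hB => (hb B hB).mp) s,
      indep_of_bases a' a hspan' (fun B hB => (hb B hB).mpr) s⟩
  have hcl : ∀ (J : Set (Fin d)) (j : Fin d), (⋂ i ∈ J, hyper (a i)) ⊆ hyper (a j) ↔
      (⋂ i ∈ J, hyper (a' i)) ⊆ hyper (a' j) := by
    intro J j
    rw [biInter_subset_iff, biInter_subset_iff]
    exact ⟨span_of_indep a a' h J j, span_of_indep a' a (fun s => (h s).symm) J j⟩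
  exact ⟨flatsIso _ _ hcl, fun Y Z => (flatsIso_rel _ _ hcl Z Y).symm⟩

end Matroid

end Pool.Agent.H43.StableFree
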