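import Pool.Agent.H43.StableFree.Transfer

/-!
The Laurent polynomial ring containing `S`, and the vanishing of the intermediate Cech
cohomology of `S` itself.
-/

open MvPolynomial

namespace Pool.Agent.H43.StableFree

variable {n : ℕ}

/-- The Laurent polynomial ring in `n + 1` variables. -/
abbrev LaurentS (n : ℕ) : Type := AddMonoidAlgebra ℂ (Fin (n + 1) → ℤ)

/-- Exponents as integer vectors. -/
def expo (n : ℕ) : (Fin (n + 1) →₀ ℕ) →+ (Fin (n + 1) → ℤ) where
  toFun m i := (m i : ℤ)
  map_zero' := by funext i; simp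
  map_add' m m' := by funext i; simp

theorem expo_injective : Function.Injective (expo n) := by
  intro m m' h
  ext i
  have := congrFun h i
  simpa [expo] using this

/-- The inclusion of `S` in the Laurent polynomial ring. -/
noncomputable def incl (n : ℕ) : PolyS n →+* LaurentS n :=
  AddMonoidAlgebra.mapDomainRingHom ℂ (expo n)

noncomputable instance : Algebra (PolyS n) (LaurentS n) := (incl n).toAlgebra

theorem smul_eq (p : PolyS n) (v : LaurentS n) : p • v = incl n p * v := rfl

theorem algebraMap_eq_incl : algebraMap (PolyS n) (LaurentS n) = incl n := rfl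

theorem incl_injective : Function.Injective (incl n) :=
  AddMonoidAlgebra.mapDomain_injective expo_injective

theorem incl_X (i : Fin (n + 1)) :
    incl n (X i) = AddMonoidAlgebra.single (Pi.single i 1) 1 := by
  change AddMonoidAlgebra.mapDomain (expo n) (AddMonoidAlgebra.single (Finsupp.single i 1) 1) = _
  rw [AddMonoidAlgebra.mapDomain_single]
  congr 1
  funext k
  simp only [expo, AddMonoidHom.coe_mk, ZeroHom.coe_mk]
  by_cases hk : k = i
  · subst hk; simp
  · simp [hk]

theorem varUnits_laurent : VarUnits (n := n) (LaurentS n) := by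
  intro i
  rw [Module.End.isUnit_iff]
  have h1 : (AddMonoidAlgebra.single (-Pi.single i (1 : ℤ)) (1 : ℂ) : LaurentS n) *
      incl n (X i) = 1 := by
    rw [incl_X, AddMonoidAlgebra.single_mul_single]
    simp [AddMonoidAlgebra.one_def]
  constructor
  · intro v w hvw
    have : incl n (X i) * v = incl n (X i) * w := hvw
    calc v = (AddMonoidAlgebra.single (-Pi.single i (1 : ℤ)) (1 : ℂ) : LaurentS n) *
      incl n (X i) * v := by rw [h1, one_mul]
      _ = (AddMonoidAlgebra.single (-Pi.single i (1 : ℤ)) (1 : ℂ) : LaurentS n) *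
      incl n (X i) * w := by rw [mul_assoc, this, ← mul_assoc]
      _ = w := by rw [h1, one_mul]
  · intro v
    refine ⟨AddMonoidAlgebra.single (-Pi.single i (1 : ℤ)) (1 : ℂ) * v, ?_⟩
    change incl n (X i) * (AddMonoidAlgebra.single (-Pi.single i (1 : ℤ)) (1 : ℂ) * v) = v
    rw [← mul_assoc, mul_comm (incl n (X i)), h1, one_mul]

/-- Multiplicity vector of a tuple. -/
def mult {p : ℕ} (σ : Fin p → Fin (n + 1)) : Fin (n + 1) → ℤ := ∑ k, Pi.single (σ k) 1

theorem mult_nonneg {p : ℕ} (σ : Fin p → Fin (n + 1)) (i : Fin (n + 1)) : 0 ≤ mult σ i := by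
  unfold mult
  rw [Finset.sum_apply]
  refine Finset.sum_nonneg fun k _ => ?_
  by_cases h : i = σ k
  · subst h; simp
  · simp [h]

theorem mult_pos {p : ℕ} (σ : Fin p → Fin (n + 1)) (k : Fin p) : 1 ≤ mult σ (σ k) := by
  unfold mult
  rw [Finset.sum_apply]
  have h : ∀ j ∈ Finset.univ, (0 : ℤ) ≤ (Pi.single (σ j) (1 : ℤ) : Fin (n + 1) → ℤ) (σ k) := by
    intro j _
    by_cases h : σ k = σ j
    · rw [h]; simp
    · simp [h]
  refine le_trans ?_ (Finset.single_le_sum h (Finset.mem_univ k))
  simp

theorem mult_zero {p : ℕ} (σ : Fin p → Fin (n + 1)) (i : Fin (n + 1)) (hi : ∀ k, σ k ≠ i) :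
    mult σ i = 0 := by
  unfold mult
  rw [Finset.sum_apply]
  refine Finset.sum_eq_zero fun k _ => ?_
  simp [Ne.symm (hi k)]

theorem incl_xprod_pow {p : ℕ} (σ : Fin p → Fin (n + 1)) (N : ℕ) :
    incl n (xprod σ ^ N) = AddMonoidAlgebra.single (N • mult σ) 1 := by
  have h1 : incl n (xprod σ) = AddMonoidAlgebra.single (mult σ) 1 := by
    unfold xprod mult
    rw [map_prod]
    simp only [incl_X]
    rw [AddMonoidAlgebra.prod_single]
    simp
  rw [map_pow, h1, AddMonoidAlgebra.single_pow]
  simp

theorem coeff_xprod_smul {p : ℕ} (σ : Fin p → Fin (n + 1)) (N : ℕ) (v : LaurentS n)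
    (a : Fin (n + 1) → ℤ) :
    (xprod σ ^ N • v).coeff a = v.coeff (a - N • mult σ) := by
  rw [smul_eq, incl_xprod_pow, AddMonoidAlgebra.coeff_single_mul_apply, one_mul]
  congr 1
  abel

/-- Being supported on exponents that are nonnegative outside the range of `σ`. -/
def InL {p : ℕ} (σ : Fin p → Fin (n + 1)) (v : LaurentS n) : Prop :=
  ∀ a, v.coeff a ≠ 0 → ∀ i, (∀ k, σ k ≠ i) → 0 ≤ a i

theorem mem_incl_iff (v : LaurentS n) :
    (∃ p, incl n p = v) ↔ ∀ a, v.coeff a ≠ 0 → ∀ i, 0 ≤ a i := by
  constructor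
  · rintro ⟨p, rfl⟩ a ha i
    have hmem : a ∈ (Finsupp.mapDomain (expo n) (AddMonoidAlgebra.coeff p)).support := by
      rw [Finsupp.mem_support_iff]
      exact ha
    have := Finsupp.mapDomain_support hmem
    rw [Finset.mem_image] at this
    obtain ⟨m, -, rfl⟩ := this
    simp [expo]
  · intro h
    refine ⟨AddMonoidAlgebra.comapDomain (expo n) expo_injective v, ?_⟩
    refine AddMonoidAlgebra.mapDomain_comapDomain ?_ _
    intro a ha
    have ha' : v.coeff a ≠ 0 := by simpa using ha
    refine ⟨Finsupp.equivFunOnFinite.symm fun i => (a i).toNat, ?_⟩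
    funext i
    simp [expo, h a ha' i]

theorem mem_locSub_iff {p : ℕ} (σ : Fin p → Fin (n + 1)) (v : LaurentS n) :
    v ∈ locSub (Algebra.linearMap (PolyS n) (LaurentS n)) σ ↔ InL σ v := by
  constructor
  · rintro ⟨N, m, h⟩ a ha i hi
    have h1 : (xprod σ ^ N • v).coeff (a + N • mult σ) ≠ 0 := by
      rw [coeff_xprod_smul]
      simpa using ha
    rw [h] at h1
    have h2 := (mem_incl_iff _).mp ⟨m, rfl⟩ _ h1 i
    simpa [mult_zero σ i hi] using h2
  · intro h
    -- choose a bound for the negative exponents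
    obtain ⟨N, hN⟩ : ∃ N : ℕ, ∀ a, v.coeff a ≠ 0 → ∀ i, -(N : ℤ) ≤ a i := by
      refine ⟨∑ a ∈ v.coeff.support, ∑ i, (a i).natAbs, ?_⟩
      intro a ha i
      have h1 : (a i).natAbs ≤ ∑ a ∈ v.coeff.support, ∑ i, (a i).natAbs := by
        refine le_trans ?_ (Finset.single_le_sum (f := fun a : Fin (n + 1) → ℤ =>
          ∑ i, (a i).natAbs) (fun _ _ => Nat.zero_le _) (Finsupp.mem_support_iff.mpr ha))
        exact Finset.single_le_sum (f := fun i => (a i).natAbs) (fun _ _ => Nat.zero_le _)
          (Finset.mem_univ i)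
      have h2 : -(((a i).natAbs : ℕ) : ℤ) ≤ a i := by
        rw [Int.natCast_natAbs]
        exact neg_abs_le _
      refine le_trans ?_ h2
      exact neg_le_neg (by exact_mod_cast h1)
    refine ⟨N, ?_⟩
    have : ∃ q, incl n q = xprod σ ^ N • v := by
      rw [mem_incl_iff]
      intro a ha i
      rw [coeff_xprod_smul] at ha
      by_cases hi : ∃ k, σ k = i
      · obtain ⟨k, rfl⟩ := hi
        have h1 := hN _ ha (σ k)
        have h2 := mult_pos σ k
        have h1 : -(N : ℤ) ≤ a (σ k) - N * mult σ (σ k) := by simpa using h1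
        have h3 : (N : ℤ) ≤ N * mult σ (σ k) := by
          nlinarith [Int.natCast_nonneg N]
        linarith
      · push Not at hi
        have h1 := h _ ha i hi
        simpa [mult_zero σ i hi] using h1
    obtain ⟨q, hq⟩ := this
    exact ⟨q, hq.symm⟩

/-- Projection of Laurent polynomials onto exponents satisfying a predicate. -/
noncomputable def proj (P : (Fin (n + 1) → ℤ) → Prop) (v : LaurentS n) : LaurentS n :=
  open Classical in AddMonoidAlgebra.ofCoeff (v.coeff.filter P)

theorem coeff_proj (P : (Fin (n + 1) → ℤ) → Prop) (v : LaurentS n) (a : Fin (n + 1) → ℤ) :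
    (proj P v).coeff a = open Classical in if P a then v.coeff a else 0 := by
  classical
  unfold proj
  rw [AddMonoidAlgebra.coeff_ofCoeff, Finsupp.filter_apply]

/-- `i` is the first index with nonnegative exponent. -/
def First (i : Fin (n + 1)) (a : Fin (n + 1) → ℤ) : Prop := 0 ≤ a i ∧ ∀ i' < i, a i' < 0

theorem sum_proj (v : LaurentS n) (hv : ∀ a, v.coeff a ≠ 0 → ∃ i, 0 ≤ a i) :
    ∑ i, proj (First i) v = v := by
  classical
  apply AddMonoidAlgebra.coeff_injective
  ext a
  rw [AddMonoidAlgebra.coeff_sum, Finsupp.finsetSum_apply]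
  simp only [coeff_proj]
  by_cases ha : v.coeff a = 0
  · simp [ha]
  · obtain ⟨i, hi⟩ := hv a ha
    let s : Finset (Fin (n + 1)) := Finset.univ.filter fun i => 0 ≤ a i
    have hs : s.Nonempty := ⟨i, by simp [s, hi]⟩
    set i₀ := s.min' hs with hi₀
    have h₀ : First i₀ a := by
      refine ⟨?_, ?_⟩
      · have := s.min'_mem hs
        simpa [s] using this
      · intro i' hi'
        by_contra hcon
        push Not at hcon
        have hmem : i' ∈ s := by simp [s, hcon]
        exact absurd (s.min'_le i' hmem) (not_le.mpr hi')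
    rw [Finset.sum_eq_single i₀]
    · simp [h₀]
    · intro b _ hb
      rw [if_neg]
      rintro ⟨hb1, hb2⟩
      rcases lt_trichotomy b i₀ with h | h | h
      · exact absurd (h₀.2 b h) (not_lt.mpr hb1)
      · exact hb h
      · exact absurd (hb2 i₀ h) (not_lt.mpr h₀.1)
    · intro h; exact absurd (Finset.mem_univ _) h

theorem proj_sum {ι : Type*} (s : Finset ι) (P : (Fin (n + 1) → ℤ) → Prop)
    (f : ι → LaurentS n) : proj P (∑ k ∈ s, f k) = ∑ k ∈ s, proj P (f k) := by
  classical
  apply AddMonoidAlgebra.coeff_injective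
  ext a
  rw [coeff_proj, AddMonoidAlgebra.coeff_sum, AddMonoidAlgebra.coeff_sum,
    Finsupp.finsetSum_apply, Finsupp.finsetSum_apply]
  simp only [coeff_proj]
  split_ifs <;> simp

theorem neg_one_pow_smul (k : ℕ) (v : LaurentS n) :
    ((-1 : PolyS n) ^ k) • v = ((-1 : ℂ) ^ k) • v := by
  rcases neg_one_pow_eq_or (PolyS n) k with h | h <;>
  rcases Nat.even_or_odd k with hk | hk
  · rw [hk.neg_one_pow, hk.neg_one_pow]; simp
  · rw [hk.neg_one_pow, hk.neg_one_pow]; simp
  · rw [hk.neg_one_pow, hk.neg_one_pow]; simp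
  · rw [hk.neg_one_pow, hk.neg_one_pow]; simp

theorem proj_neg_one_pow_smul (P : (Fin (n + 1) → ℤ) → Prop) (k : ℕ) (v : LaurentS n) :
    proj P (((-1 : PolyS n) ^ k) • v) = ((-1 : PolyS n) ^ k) • proj P v := by
  classical
  rw [neg_one_pow_smul, neg_one_pow_smul]
  apply AddMonoidAlgebra.coeff_injective
  ext a
  rw [coeff_proj, AddMonoidAlgebra.coeff_smul, AddMonoidAlgebra.coeff_smul, Finsupp.smul_apply,
    Finsupp.smul_apply, coeff_proj]
  split_ifs <;> simp

/-- Vanishing of the Cech cohomology of `S` in degree `p + 1` for `p + 1 < n`. -/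
theorem cech_S {p : ℕ} (hp : p + 2 ≤ n) (c : (Fin (p + 2) → Fin (n + 1)) → LaurentS n)
    (hc : ∀ σ, InL σ (c σ)) (hdc : dV c = 0) :
    ∃ b : (Fin (p + 1) → Fin (n + 1)) → LaurentS n, (∀ σ, InL σ (b σ)) ∧ dV b = c := by
  classical
  refine ⟨fun τ => ∑ i, proj (First i) (c (Fin.cons i τ)), ?_, ?_⟩
  · intro τ a ha i hi
    rw [AddMonoidAlgebra.coeff_sum, Finsupp.finsetSum_apply] at ha
    obtain ⟨i', -, hi'⟩ := Finset.exists_ne_zero_of_sum_ne_zero ha
    rw [coeff_proj] at hi'
    split_ifs at hi' with hF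
    · by_cases h : i' = i
      · subst h; exact hF.1
      · refine hc _ a hi' i ?_
        intro k
        refine Fin.cases ?_ ?_ k
        · simpa using h
        · intro k; simpa using hi k
    · exact absurd rfl hi'
  · funext σ
    have h1 : ∀ i, ∑ k : Fin (p + 2), (-1 : PolyS n) ^ (k : ℕ) • c (Fin.cons i (σ ∘ k.succAbove))
        = c σ := by
      intro i
      have h := congrFun hdc (Fin.cons i σ)
      unfold dV at h
      rw [Fin.sum_univ_succ] at h
      have h0 : (Fin.cons i σ : Fin (p + 3) → Fin (n + 1)) ∘ (0 : Fin (p + 3)).succAbove = σ := by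
        funext k
        simp
      have h2 : ∀ k : Fin (p + 2), (Fin.cons i σ : Fin (p + 3) → Fin (n + 1)) ∘ k.succ.succAbove
          = Fin.cons i (σ ∘ k.succAbove) := by
        intro k
        funext l
        refine Fin.cases ?_ ?_ l
        · simp
        · intro l; simp
      simp only [h0, h2, Fin.val_zero, pow_zero, one_smul, Fin.val_succ, pow_succ, mul_neg,
        mul_one, neg_smul, Pi.zero_apply, Finset.sum_neg_distrib] at h
      exact (add_neg_eq_zero.mp h).symm
    unfold dV
    have h3 : ∀ k : Fin (p + 2), (-1 : PolyS n) ^ (k : ℕ) •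
        (∑ i, proj (First i) (c (Fin.cons i (σ ∘ k.succAbove)))) =
        ∑ i, proj (First i) ((-1 : PolyS n) ^ (k : ℕ) • c (Fin.cons i (σ ∘ k.succAbove))) := by
      intro k
      rw [Finset.smul_sum]
      refine Finset.sum_congr rfl fun i _ => ?_
      rw [proj_neg_one_pow_smul]
    simp only [h3]
    rw [Finset.sum_comm]
    simp only [← proj_sum, h1]
    apply sum_proj
    intro a ha
    -- some index is not in the range of σ
    have hcard : ∃ i, ∀ k, σ k ≠ i := by
      by_contra hcon
      push Not at hcon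
      have hsurj : Function.Surjective σ := fun i => hcon i
      have := Fintype.card_le_of_surjective σ hsurj
      simp at this
      omega
    obtain ⟨i, hi⟩ := hcard
    exact ⟨i, hc σ a ha i hi⟩

/-- Degree zero: a compatible family of elements of the `S_{x_i}` is an element of `S`. -/
theorem cech_S_zero (hn : 1 ≤ n) (c : (Fin 1 → Fin (n + 1)) → LaurentS n)
    (hc : ∀ σ, InL σ (c σ)) (hdc : dV c = 0) : ∃ s : PolyS n, ∀ σ, c σ = incl n s := by
  have hconst : ∀ i j : Fin (n + 1), c ![i] = c ![j] := by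
    intro i j
    have h := congrFun hdc ![j, i]
    unfold dV at h
    rw [Fin.sum_univ_two] at h
    have h0 : (![j, i] : Fin 2 → Fin (n + 1)) ∘ (0 : Fin 2).succAbove = ![i] := by
      funext k; fin_cases k; simp
    have h1 : (![j, i] : Fin 2 → Fin (n + 1)) ∘ (1 : Fin 2).succAbove = ![j] := by
      funext k; fin_cases k; simp
    simp only [h0, h1, Fin.val_zero, pow_zero, one_smul, Fin.val_one, pow_one, neg_smul,
      Pi.zero_apply] at h
    exact add_neg_eq_zero.mp h
  have hall : ∀ σ : Fin 1 → Fin (n + 1), c σ = c ![0] := by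
    intro σ
    have : σ = ![σ 0] := by funext k; fin_cases k; simp
    rw [this]
    exact hconst _ _
  have : ∃ s, incl n s = c ![0] := by
    rw [mem_incl_iff]
    intro a ha i
    by_cases hi : i = 0
    · have h1 : c ![0] = c ![Fin.last n] := hconst _ _
      rw [h1] at ha
      refine hc _ a ha i ?_
      intro k
      fin_cases k
      simp only [Matrix.cons_val_fin_one, hi]
      intro h
      have := congrArg Fin.val h
      simp at this
      omega
    · refine hc _ a ha i ?_
      intro k
      fin_cases k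
      simpa using Ne.symm hi
  obtain ⟨s, hs⟩ := this
  exact ⟨s, fun σ => by rw [hall σ, hs]⟩

end Pool.Agent.H43.StableFree
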