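import Pool.Agent.H43.StableFree.Defs

/-!
Transfer of the vanishing of Cech cohomology of a module `M` to a concrete statement about
cochains with values in a module `V` containing `M` on which all variables act invertibly.
-/

open MvPolynomial

namespace Pool.Agent.H43.StableFree

section Transfer

variable {n : ℕ} {M V : Type*} [AddCommGroup M] [Module (PolyS n) M]
  [AddCommGroup V] [Module (PolyS n) V]

/-- All variables act invertibly on `V`. -/
def VarUnits (V : Type*) [AddCommGroup V] [Module (PolyS n) V] : Prop :=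
  ∀ i : Fin (n + 1), IsUnit (algebraMap (PolyS n) (Module.End (PolyS n) V) (X i))

theorem VarUnits.xprod (hV : VarUnits (n := n) V) {p : ℕ} (σ : Fin p → Fin (n + 1)) :
    IsUnit (algebraMap (PolyS n) (Module.End (PolyS n) V) (xprod σ)) := by
  unfold StableFree.xprod
  refine Finset.prod_induction (fun k => (X (σ k) : PolyS n))
    (fun f => IsUnit (algebraMap (PolyS n) (Module.End (PolyS n) V) f)) ?_ ?_ ?_
  · intro a b ha hb
    rw [map_mul]
    exact ha.mul hb
  · rw [map_one]
    exact isUnit_one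
  · intro k _
    exact hV (σ k)

theorem VarUnits.pow (hV : VarUnits (n := n) V) {p : ℕ} (σ : Fin p → Fin (n + 1))
    (s : Submonoid.powers (StableFree.xprod σ)) :
    IsUnit (algebraMap (PolyS n) (Module.End (PolyS n) V) s) := by
  obtain ⟨s, k, rfl⟩ := s
  simpa using (hV.xprod σ).pow k

theorem VarUnits.injective (hV : VarUnits (n := n) V) {p : ℕ} (σ : Fin p → Fin (n + 1)) (N : ℕ)
    {v w : V} (h : StableFree.xprod σ ^ N • v = StableFree.xprod σ ^ N • w) : v = w := by
  have h1 := hV.pow σ ⟨StableFree.xprod σ ^ N, N, rfl⟩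
  have h2 := ((Module.End.isUnit_iff _).mp h1).1
  exact h2 h

theorem VarUnits.surjective (hV : VarUnits (n := n) V) {p : ℕ} (σ : Fin p → Fin (n + 1)) (N : ℕ)
    (v : V) : ∃ w : V, StableFree.xprod σ ^ N • w = v := by
  have h1 := hV.pow σ ⟨StableFree.xprod σ ^ N, N, rfl⟩
  exact ((Module.End.isUnit_iff _).mp h1).2 v

/-- The map `M_{x_σ} → V` induced by a map `M → V`. -/
noncomputable def emb (hV : VarUnits (n := n) V) (j : M →ₗ[PolyS n] V) {p : ℕ}
    (σ : Fin p → Fin (n + 1)) : Loc M (xprod σ) →ₗ[PolyS n] V :=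
  LocalizedModule.lift _ j (hV.pow σ)

theorem emb_mk (hV : VarUnits (n := n) V) (j : M →ₗ[PolyS n] V) {p : ℕ}
    (σ : Fin p → Fin (n + 1)) (m : M) (N : ℕ) :
    xprod σ ^ N • emb hV j σ (LocalizedModule.mk m ⟨xprod σ ^ N, N, rfl⟩) = j m := by
  rw [← map_smul]
  have : xprod σ ^ N • LocalizedModule.mk m
      (⟨xprod σ ^ N, N, rfl⟩ : Submonoid.powers (xprod σ)) = LocalizedModule.mk m 1 := by
    rw [LocalizedModule.smul'_mk]
    exact LocalizedModule.mk_cancel (⟨xprod σ ^ N, N, rfl⟩ : Submonoid.powers (xprod σ)) m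
  rw [this]
  exact LocalizedModule.lift_mk_one _ j (hV.pow σ) m

theorem emb_restr (hV : VarUnits (n := n) V) (j : M →ₗ[PolyS n] V) {p q : ℕ}
    (σ : Fin p → Fin (n + 1)) (τ : Fin q → Fin (n + 1)) (h : xprod σ ∣ xprod τ)
    (x : Loc M (xprod σ)) : emb hV j τ (restr M h x) = emb hV j σ x := by
  have : (emb hV j τ) ∘ₗ restr M h = emb hV j σ := by
    refine IsLocalizedModule.ext (Submonoid.powers (xprod σ))
      (LocalizedModule.mkLinearMap (Submonoid.powers (xprod σ)) M) (hV.pow σ) ?_
    ext m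
    simp only [LinearMap.comp_apply, LocalizedModule.mkLinearMap_apply]
    rw [restr, LocalizedModule.lift_mk_one]
    simp only [LocalizedModule.mkLinearMap_apply]
    rw [emb, emb, LocalizedModule.lift_mk_one, LocalizedModule.lift_mk_one]
  exact LinearMap.congr_fun this x

theorem emb_injective (hV : VarUnits (n := n) V) (j : M →ₗ[PolyS n] V)
    (hj : Function.Injective j) {p : ℕ} (σ : Fin p → Fin (n + 1)) :
    Function.Injective (emb hV j σ) := by
  rw [← LinearMap.ker_eq_bot, LinearMap.ker_eq_bot']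
  intro x
  refine LocalizedModule.induction_on ?_ x
  rintro m ⟨s, N, rfl⟩ hx
  have h := emb_mk hV j σ m N
  change emb hV j σ (LocalizedModule.mk m ⟨xprod σ ^ N, N, rfl⟩) = 0 at hx
  rw [hx, smul_zero] at h
  have hm : m = 0 := hj (by rw [← h, map_zero])
  subst hm
  exact LocalizedModule.zero_mk _

/-- The submodule of those `v ∈ V` such that `x_σ^N v` lies in the image of `M` for some `N`. -/
def locSub (j : M →ₗ[PolyS n] V) {p : ℕ} (σ : Fin p → Fin (n + 1)) : Set V :=
  {v | ∃ N : ℕ, ∃ m : M, xprod σ ^ N • v = j m}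

theorem mem_range_emb (hV : VarUnits (n := n) V) (j : M →ₗ[PolyS n] V) {p : ℕ}
    (σ : Fin p → Fin (n + 1)) (v : V) :
    (∃ x, emb hV j σ x = v) ↔ v ∈ locSub j σ := by
  constructor
  · rintro ⟨x, rfl⟩
    refine LocalizedModule.induction_on ?_ x
    rintro m ⟨s, N, rfl⟩
    exact ⟨N, m, emb_mk hV j σ m N⟩
  · rintro ⟨N, m, h⟩
    refine ⟨LocalizedModule.mk m ⟨xprod σ ^ N, N, rfl⟩, ?_⟩
    apply hV.injective σ N
    rw [emb_mk, h]

/-- The differential on cochains with values in `V`. -/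
noncomputable def dV {p : ℕ} (c : (Fin (p + 1) → Fin (n + 1)) → V) : (Fin (p + 2) → Fin (n + 1)) → V :=
  fun σ => ∑ k : Fin (p + 2), (-1 : PolyS n) ^ (k : ℕ) • c (σ ∘ k.succAbove)

theorem emb_cechD (hV : VarUnits (n := n) V) (j : M →ₗ[PolyS n] V) {p : ℕ}
    (c : Cochain (n := n) M p) (σ : Fin (p + 2) → Fin (n + 1)) :
    emb hV j σ (cechD M p c σ) = dV (fun τ => emb hV j τ (c τ)) σ := by
  simp only [cechD, LinearMap.coe_mk, AddHom.coe_mk, map_sum, map_smul, dV]
  refine Finset.sum_congr rfl fun k _ => ?_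
  rw [emb_restr]

theorem transfer (hV : VarUnits (n := n) V) (j : M →ₗ[PolyS n] V)
    (hj : Function.Injective j) (p : ℕ) :
    Subsingleton (HStar (n := n) M (p + 1)) ↔
      ∀ c : (Fin (p + 2) → Fin (n + 1)) → V, (∀ σ, c σ ∈ locSub j σ) → dV c = 0 →
        ∃ b : (Fin (p + 1) → Fin (n + 1)) → V, (∀ σ, b σ ∈ locSub j σ) ∧ dV b = c := by
  have key : Subsingleton (HStar (n := n) M (p + 1)) ↔
      ∀ c : Cochain (n := n) M (p + 1), cechD M (p + 1) c = 0 → ∃ b, cechD M p b = c := by
    unfold HStar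
    rw [Submodule.Quotient.subsingleton_iff]
    constructor
    · intro h c hc
      have : (⟨c, hc⟩ : LinearMap.ker (cechD (n := n) M (p + 1))) ∈
          (LinearMap.range (cechD (n := n) M p)).submoduleOf
            (LinearMap.ker (cechD (n := n) M (p + 1))) := by
        rw [h]; trivial
      obtain ⟨b, hb⟩ := this
      exact ⟨b, hb⟩
    · intro h
      rw [eq_top_iff]
      rintro ⟨c, hc⟩ -
      obtain ⟨b, hb⟩ := h c hc
      exact ⟨b, hb⟩
  rw [key]
  constructor
  · intro h c hc hdc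
    choose x hx using fun σ => (mem_range_emb hV j σ (c σ)).mpr (hc σ)
    obtain ⟨b, hb⟩ := h x (by
      funext σ
      apply emb_injective hV j hj σ
      rw [emb_cechD]
      simp only [hx, Pi.zero_apply, map_zero]
      exact congrFun hdc σ)
    refine ⟨fun τ => emb hV j τ (b τ), fun τ => (mem_range_emb hV j τ _).mp ⟨_, rfl⟩, ?_⟩
    funext σ
    rw [← emb_cechD, hb, hx]
  · intro h c hc
    obtain ⟨b, hb, hdb⟩ := h (fun τ => emb hV j τ (c τ))
      (fun τ => (mem_range_emb hV j τ _).mp ⟨_, rfl⟩) (by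
        funext σ
        rw [← emb_cechD, hc]
        simp)
    choose x hx using fun σ => (mem_range_emb hV j σ (b σ)).mpr (hb σ)
    refine ⟨x, ?_⟩
    funext σ
    apply emb_injective hV j hj σ
    rw [emb_cechD]
    simp only [hx]
    exact congrFun hdb σ

end Transfer

end Pool.Agent.H43.StableFree
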